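import Pool.Agent.Y603.PC.Sum
import Pool.Agent.Y795.PiH.Top
import Pool.Agent.W472.AC.RothThm
import Pool.Agent.TH419.FS.Consts

/-!
# Exponents of approximation of the classical constants
-/

set_option autoImplicit false

namespace Pool.Agent.Y603.PC

lemma irr_of {x w : ℝ} (h : ∀ η : ℝ, 0 < η → ∃ c : ℝ, 0 < c ∧ ∀ q : ℕ, 1 ≤ q → ∀ p : ℤ,
    c ≤ (q : ℝ) ^ (w + η) * |q * x - p|) : Irr x w := by
  intro ε hε
  obtain ⟨c, hc, h⟩ := h ε hε
  refine ⟨c, hc, fun q hq a => ?_⟩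
  have hqR : (1 : ℝ) ≤ q := by exact_mod_cast hq
  have hq0 : (0 : ℝ) < q := by linarith
  rw [Real.rpow_neg hq0.le, ← div_eq_mul_inv, div_le_iff₀ (by positivity), mul_comm]
  exact h q hq a

lemma irr_of' {x w : ℝ} (h : ∃ c : ℝ, 0 < c ∧ ∀ q : ℕ, 1 ≤ q → ∀ p : ℤ,
    c ≤ (q : ℝ) ^ w * |q * x - p|) : Irr x w := by
  refine irr_of fun η hη => ?_
  obtain ⟨c, hc, h⟩ := h
  refine ⟨c, hc, fun q hq p => (h q hq p).trans ?_⟩
  have hqR : (1 : ℝ) ≤ q := by exact_mod_cast hq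
  gcongr
  linarith

lemma meas_pi : ∃ c : ℝ, 0 < c ∧ ∀ q : ℕ, 1 ≤ q → ∀ p : ℤ,
    c ≤ (q : ℝ) ^ (4.643 : ℝ) * |q * Real.pi - p| := by
  obtain ⟨q0, hq0⟩ := Pool.Agent.Y795.PiH.main
  obtain ⟨c, hc, hsm⟩ := Pool.Agent.TH419.FS.small_den Real.pi irrational_pi q0
  refine ⟨min c 1, lt_min hc one_pos, fun q hq p => ?_⟩
  have hqR : (1 : ℝ) ≤ q := by exact_mod_cast hq
  have hq0R : (0 : ℝ) < q := by linarith
  rcases lt_or_ge q q0 with h | h
  · refine (min_le_left _ _).trans ((hsm q hq h p).trans ?_)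
    have h1 : (1 : ℝ) ≤ (q : ℝ) ^ (4.643 : ℝ) := Real.one_le_rpow hqR (by norm_num)
    nlinarith [abs_nonneg ((q : ℝ) * Real.pi - p)]
  · refine (min_le_right _ _).trans ?_
    have h1 := hq0 q h p
    have e1 : |Real.pi - p / q| = |q * Real.pi - p| / q := by
      rw [← abs_of_pos hq0R, ← abs_div, abs_of_pos hq0R]
      congr 1
      field_simp
    rw [e1, le_div_iff₀ hq0R] at h1
    have h2 : (1 : ℝ) = (q : ℝ) ^ (4.643 : ℝ) * ((q : ℝ) ^ (-(5.643 : ℝ)) * q) := by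
      have e2 : (q : ℝ) ^ (-(5.643 : ℝ)) * q = (q : ℝ) ^ (-(4.643 : ℝ)) := by
        rw [show (-(4.643 : ℝ)) = -(5.643 : ℝ) + 1 by norm_num, Real.rpow_add hq0R, Real.rpow_one]
      rw [e2, ← Real.rpow_add hq0R]
      norm_num
    rw [h2]
    exact mul_le_mul_of_nonneg_left h1 (by positivity)

theorem irr_pi : Irr Real.pi 4.643 := irr_of' meas_pi

theorem irr_exp : Irr (Real.exp 1) 1 := irr_of fun _ hη => Pool.Agent.TH419.FS.meas_exp hη

theorem irr_log : Irr (Real.log 2) 3.211 := irr_of' Pool.Agent.W47.LC.ln2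

theorem irr_alg (x : ℝ) (hx : IsAlgebraic ℚ x) (hirr : Irrational x) : Irr x 1 :=
  irr_of fun η hη => Pool.Agent.W472.AC.roth x hx hirr η hη

end Pool.Agent.Y603.PC
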