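import Pool.Agent.Y603.BR.Asy

/-!
# Laws of words with almost independent letters fool circuits of constant depth
-/

set_option autoImplicit false

namespace Pool.Agent.Y603.PC

open Finset Filter Real
open Pool.Agent.Y603.BR

open Classical in
/-- **Laws of words with almost independent letters fool the circuits of constant depth.** -/
theorem abs_fool {b : ℕ} (hb : 2 ≤ b) (hb0 : 0 < b) (d : ℕ) {A η ρ : ℝ} (hA : 0 ≤ A) (hη : 0 < η)
    (hρ : 0 < ρ) :
    ∃ c : ℝ, 0 < c ∧ ∃ M0 : ℕ, ∀ M : ℕ, M0 ≤ M → ∀ n : ℕ, (b : ℝ) ^ n ≤ (M : ℝ) ^ A →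
      ∀ D : (Fin n → Fin b) → ℝ, (∀ x, 0 ≤ D x) → ∑ x, D x = 1 →
      (∀ K k : ℕ, 0 < K → (k : ℝ) * (K : ℝ) ^ 3 ≤ (M : ℝ) ^ ρ → ∀ J : Finset (Fin n),
        J.card ≤ k → ∀ a : Fin n → Fin b,
        |∑ x, D x * (if ∀ j ∈ J, x j = a j then 1 else 0) - ((b : ℝ) ^ J.card)⁻¹| ≤
          (2 * (K : ℝ) ^ 3 + 1) ^ k * (M : ℝ) ^ (-η) + k * (12 / K + 5 * (M : ℝ) ^ (-η))) →
      ∀ C : LC (Fin b) n, (∀ v, C.depth v ≤ d) →
      (Nat.card C.Node : ℝ) ≤ exp (log M ^ c) → ∀ v : C.Node,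
      |∑ x, D x * rw' (C.val v) x - ∑ x, ((b : ℝ) ^ n)⁻¹ * rw' (C.val v) x| ≤
        exp (-(log M ^ c)) := by
  obtain ⟨q0, hq0⟩ := PB.ord d
  set q := max q0 1 with hq
  have hq1 : 1 ≤ q := le_max_right _ _
  have hord : ∀ s, 2 ≤ s → ord s s d ≤ s ^ q := fun s hs =>
    (hq0 s hs).trans (Nat.pow_le_pow_right (by omega) (le_max_left _ _))
  have hqR : (0 : ℝ) < q := by exact_mod_cast hq1
  set η' := min η (min ρ 1) with hη'
  have hη'0 : 0 < η' := lt_min hη (lt_min hρ one_pos)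
  have hη'1 : η' ≤ 1 := (min_le_right _ _).trans (min_le_right _ _)
  have hη'3 : η' ≤ ρ := (min_le_right _ _).trans (min_le_left _ _)
  have hη'2 : η' ≤ η := min_le_left _ _
  obtain ⟨x0, hx01, hx0⟩ := numerics hb hq1 (A := 2 * A) (by positivity) hη'0
  set c : ℝ := 1 / (8 * q) with hc
  have hc0 : 0 < c := by positivity
  -- the threshold
  have htend : Tendsto (fun M : ℕ => log (M : ℝ) ^ c) atTop atTop :=
    (tendsto_rpow_atTop hc0).comp (Real.tendsto_log_atTop.comp tendsto_natCast_atTop_atTop)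
  obtain ⟨M1, hM1⟩ := eventually_atTop.1 (htend.eventually_ge_atTop x0)
  have hlog : ∀ᶠ M : ℕ in atTop, log (M : ℝ) ≤ (M : ℝ) ^ (ρ / 2) := by
    have h1 := ((isLittleO_log_rpow_atTop (half_pos hρ)).comp_tendsto
      tendsto_natCast_atTop_atTop).def (c := 1) one_pos
    filter_upwards [h1, eventually_ge_atTop 1] with M h1 h2
    have h3 : (1 : ℝ) ≤ M := by exact_mod_cast h2
    simp only [Function.comp_apply, one_mul] at h1
    rwa [norm_of_nonneg (Real.log_nonneg h3), norm_of_nonneg (by positivity)] at h1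
  obtain ⟨M2, hM2⟩ := eventually_atTop.1 hlog
  refine ⟨c, hc0, max (max M1 M2) 3, fun M hM n hn D hD0 hD1 hbs C hCd hCs v => ?_⟩
  have hMM1 : M1 ≤ M := le_of_max_le_left (le_of_max_le_left hM)
  have hMM2 : M2 ≤ M := le_of_max_le_right (le_of_max_le_left hM)
  have hM3 : 3 ≤ M := le_of_max_le_right hM
  have hMR : (3 : ℝ) ≤ M := by exact_mod_cast hM3
  have hMR1 : (1 : ℝ) ≤ M := by linarith
  have hMp : (0 : ℝ) < M := by linarith
  set X := log (M : ℝ) with hX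
  set x := X ^ c with hx
  have hXM : X ≤ M := (Real.log_le_sub_one_of_pos hMp).trans (by linarith)
  have hX1 : 0 ≤ X := Real.log_nonneg hMR1
  have hxx0 : x0 ≤ x := hM1 M hMM1
  have hxX : x ^ (8 * q) = X := by
    rw [hx, ← Real.rpow_natCast, ← Real.rpow_mul hX1, hc]
    have : 1 / (8 * (q : ℝ)) * ((8 * q : ℕ) : ℝ) = 1 := by
      push_cast
      field_simp
    rw [this, Real.rpow_one]
  obtain ⟨hs2, hsize, hkX, hnum⟩ := hx0 x hxx0
  set s := ⌊x ^ 2⌋₊ with hs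
  set k := s ^ q with hk
  have hk1 : 1 ≤ k := Nat.one_le_pow _ _ (by omega)
  have hkR : (1 : ℝ) ≤ k := by exact_mod_cast hk1
  have hlog2 : (1 : ℝ) / 2 ≤ log b := by
    have h1 := Real.log_two_gt_d9
    have h2 : log 2 ≤ log b := Real.log_le_log (by norm_num) (by exact_mod_cast hb)
    linarith
  have hnX : (n : ℝ) ≤ 2 * A * x ^ (8 * q) := by
    rw [hxX]
    have h1 := Real.log_le_log (by positivity) hn
    rw [Real.log_pow, Real.log_rpow hMp] at h1
    have h2 : (n : ℝ) * (1 / 2) ≤ n * log b := mul_le_mul_of_nonneg_left hlog2 (Nat.cast_nonneg n)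
    nlinarith
  obtain ⟨hn1, hn2, hn3⟩ := hnum n hnX
  -- the level
  set κ : ℝ := η' / (8 * k) with hκ
  have hκ0 : 0 < κ := by positivity
  have hκ8 : κ ≤ 1 / 8 := by
    rw [hκ, div_le_div_iff₀ (by positivity) (by norm_num)]
    nlinarith
  have hκk : κ * k = η' / 8 := by
    rw [hκ]; field_simp
  set K : ℕ := ⌊(M : ℝ) ^ κ⌋₊ with hK
  have hMκ : 1 ≤ (M : ℝ) ^ κ := Real.one_le_rpow hMR1 hκ0.le
  have hKpos : 0 < K := Nat.floor_pos.2 hMκ
  have hK1 : (K : ℝ) ≤ (M : ℝ) ^ κ := Nat.floor_le (by linarith)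
  have hKR : (0 : ℝ) < K := by exact_mod_cast hKpos
  have hK2 : (M : ℝ) ^ κ ≤ 2 * K := by
    have h1 := Nat.lt_floor_add_one ((M : ℝ) ^ κ)
    have h2 : (1 : ℝ) ≤ K := by exact_mod_cast hKpos
    rw [← hK] at h1
    linarith
  have hK3 : (K : ℝ) ^ 3 ≤ (M : ℝ) ^ (3 * κ) := by
    calc (K : ℝ) ^ 3 ≤ ((M : ℝ) ^ κ) ^ 3 := pow_le_pow_left₀ hKR.le hK1 3
      _ = (M : ℝ) ^ (3 * κ) := by
          rw [← Real.rpow_natCast, ← Real.rpow_mul hMp.le]
          congr 1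
          push_cast
          ring
  set Δ := (M : ℝ) ^ (-η') with hΔ
  have hΔ0 : 0 ≤ Δ := by positivity
  have hΔ' : (M : ℝ) ^ (-η) ≤ Δ := Real.rpow_le_rpow_of_exponent_le hMR1 (by linarith)
  have hkK : (k : ℝ) * (K : ℝ) ^ 3 ≤ (M : ℝ) ^ ρ := by
    have h1 : (k : ℝ) ≤ (M : ℝ) ^ (ρ / 2) := (hkX.trans (le_of_eq hxX)).trans (hM2 M hMM2)
    have h2 : (K : ℝ) ^ 3 ≤ (M : ℝ) ^ (ρ / 2) := by
      refine hK3.trans (Real.rpow_le_rpow_of_exponent_le hMR1 ?_)
      have h3 : κ ≤ κ * k := by nlinarith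
      linarith
    calc (k : ℝ) * (K : ℝ) ^ 3 ≤ (M : ℝ) ^ (ρ / 2) * (M : ℝ) ^ (ρ / 2) := by gcongr
      _ = (M : ℝ) ^ ρ := by
          rw [← Real.rpow_add hMp]
          congr 1
          ring
  have hbias : ∀ J : Finset (Fin n), J.card ≤ k → ∀ a : Fin n → Fin b,
      |∑ x, D x * (if ∀ j ∈ J, x j = a j then 1 else 0) - ((b : ℝ) ^ J.card)⁻¹| ≤
        (2 * (K : ℝ) ^ 3 + 1) ^ k * Δ + k * (12 / K + 5 * Δ) := by
    intro J hJ a
    refine (hbs K k hKpos hkK J hJ a).trans ?_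
    gcongr
  set ε := (2 * (K : ℝ) ^ 3 + 1) ^ k * Δ + k * (12 / K + 5 * Δ) with hε
  have hε0 : 0 ≤ ε := by positivity
  -- the bound of `ε`
  have hΔκ : Δ ≤ (M : ℝ) ^ (-κ) := by
    rw [hΔ]
    apply Real.rpow_le_rpow_of_exponent_le hMR1
    have : κ ≤ κ * k := by nlinarith
    linarith
  have hεle : ε ≤ 32 ^ k * (M : ℝ) ^ (-κ) := by
    have hMk : 0 ≤ (M : ℝ) ^ (-κ) := by positivity
    have h1 : (2 * (K : ℝ) ^ 3 + 1) ^ k * Δ ≤ 3 ^ k * (M : ℝ) ^ (-κ) := by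
      have h2 : 2 * (K : ℝ) ^ 3 + 1 ≤ 3 * (M : ℝ) ^ (3 * κ) := by
        have : 1 ≤ (M : ℝ) ^ (3 * κ) := Real.one_le_rpow hMR1 (by positivity)
        linarith
      calc (2 * (K : ℝ) ^ 3 + 1) ^ k * Δ ≤ (3 * (M : ℝ) ^ (3 * κ)) ^ k * Δ := by gcongr
        _ = 3 ^ k * ((M : ℝ) ^ (3 * κ * k) * (M : ℝ) ^ (-η')) := by
            rw [mul_pow, ← Real.rpow_natCast ((M : ℝ) ^ (3 * κ)), ← Real.rpow_mul hMp.le, hΔ]
            ring
        _ ≤ 3 ^ k * (M : ℝ) ^ (-κ) := by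
            rw [← Real.rpow_add hMp]
            refine mul_le_mul_of_nonneg_left ?_ (by positivity)
            apply Real.rpow_le_rpow_of_exponent_le hMR1
            have h3 : 3 * κ * k = 3 * (η' / 8) := by rw [mul_assoc, hκk]
            have h4 : κ ≤ κ * k := by nlinarith
            rw [h3]
            linarith
    have h2 : 12 / (K : ℝ) ≤ 24 * (M : ℝ) ^ (-κ) := by
      rw [Real.rpow_neg hMp.le, div_le_iff₀ hKR]
      have h3 : 0 < (M : ℝ) ^ κ := by positivity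
      have h4 : 24 * ((M : ℝ) ^ κ)⁻¹ * K = 12 * ((2 * K) / (M : ℝ) ^ κ) := by field_simp; ring
      rw [h4]
      have h5 : 1 ≤ 2 * (K : ℝ) / (M : ℝ) ^ κ := by rw [le_div_iff₀ h3]; linarith
      linarith
    have h3 : (k : ℝ) * (12 / K + 5 * Δ) ≤ k * (29 * (M : ℝ) ^ (-κ)) := by
      refine mul_le_mul_of_nonneg_left ?_ (by positivity)
      linarith
    have h4 : (3 : ℝ) ^ k + 29 * k ≤ 32 ^ k := by
      have h5 : (1 : ℝ) + k * 29 ≤ (1 + 29) ^ k := one_add_mul_le_pow (by norm_num) k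
      have h6 : (3 : ℝ) ^ k + 30 ^ k ≤ 32 ^ k + 1 := by
        clear_value k
        induction k with
        | zero => norm_num
        | succ k ih =>
          rcases Nat.eq_zero_or_pos k with rfl | hkp
          · norm_num
          · have h7 : (3 : ℝ) ^ k + 30 ^ k ≤ 32 ^ k + 1 := by
              have e1 : (1 : ℝ) ≤ 3 ^ k := one_le_pow₀ (by norm_num)
              have e2 : ∀ j : ℕ, 1 ≤ j → (3 : ℝ) ^ j + 30 ^ j ≤ 32 ^ j + 1 := by
                intro j hj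
                induction j, hj using Nat.le_induction with
                | base => norm_num
                | succ j hj ihj =>
                  have e3 : (0 : ℝ) < 3 ^ j := by positivity
                  have e4 : (1 : ℝ) ≤ 30 ^ j := one_le_pow₀ (by norm_num)
                  have e5 : (1 : ℝ) ≤ 3 ^ j := one_le_pow₀ (by norm_num)
                  rw [pow_succ, pow_succ, pow_succ]
                  nlinarith
              exact e2 k hkp
            have e3 : (1 : ℝ) ≤ 3 ^ k := one_le_pow₀ (by norm_num)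
            have e4 : (1 : ℝ) ≤ 30 ^ k := one_le_pow₀ (by norm_num)
            rw [pow_succ, pow_succ, pow_succ]
            nlinarith
      norm_num at h5
      nlinarith
    calc ε ≤ 3 ^ k * (M : ℝ) ^ (-κ) + k * (29 * (M : ℝ) ^ (-κ)) := add_le_add h1 h3
      _ = (3 ^ k + 29 * k) * (M : ℝ) ^ (-κ) := by ring
      _ ≤ 32 ^ k * (M : ℝ) ^ (-κ) := mul_le_mul_of_nonneg_right h4 hMk
  -- the circuits
  have hcard : Nat.card C.Node ≤ 2 ^ s := by
    have h1 : (Nat.card C.Node : ℝ) ≤ 2 ^ s := hCs.trans hsize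
    exact_mod_cast h1
  have hnL : n * s ≤ 2 ^ s := by exact_mod_cast hn1
  have hmain := dfool_fin hb0 C (L := s) (by omega) hcard hnL hCd v
    hD0 hD1 (hord s hs2) hε0 (fun J hJ a => hbias J hJ a)
  refine hmain.trans ?_
  have h5 : (b : ℝ) ^ k * ε * (2 * (n * s + 1)) ^ k ≤ exp (-x) / 2 := by
    have h6 : (M : ℝ) ^ (-κ) = exp (-(η' * x ^ (8 * q) / (8 * (k : ℝ)))) := by
      rw [hxX, Real.rpow_def_of_pos hMp]
      congr 1
      rw [hκ, hX]
      ring
    calc (b : ℝ) ^ k * ε * (2 * (n * s + 1)) ^ k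
        ≤ (b : ℝ) ^ k * (32 ^ k * (M : ℝ) ^ (-κ)) * (2 * (n * s + 1)) ^ k := by gcongr
      _ = (64 * b * (n * s + 1)) ^ k * (M : ℝ) ^ (-κ) := by
          have h7 : (64 * (b : ℝ) * (n * s + 1)) ^ k =
              (b : ℝ) ^ k * 32 ^ k * (2 * (n * s + 1)) ^ k := by
            rw [← mul_pow, ← mul_pow]
            congr 1
            ring
          rw [h7]
          ring
      _ ≤ exp (-x) / 2 := by
          rw [h6]
          exact hn3
  linarith

end Pool.Agent.Y603.PC
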