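import Pool.Agent.Y603.PC.Poly
import Pool.Agent.Y933.KD.Unif

/-!
# Exponential sums of the integer combinations of several real polynomials
-/

set_option autoImplicit false

namespace Pool.Agent.Y603.PC

open Finset Polynomial Real
open Pool.Agent.H373R2.NB (Ph IW IW_all)
open Pool.Agent.Helper602.MK (ee)
open Pool.Agent.Y933.KD (e)

/-- The exponent of approximation of `x` is at most `w` (in the form `‖q x‖ ≥ c q ^ (-w - ε)`). -/
def Irr (x w : ℝ) : Prop :=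
  ∀ ε : ℝ, 0 < ε → ∃ c : ℝ, 0 < c ∧ ∀ q : ℕ, 1 ≤ q → ∀ a : ℤ,
    c * (q : ℝ) ^ (-(w + ε)) ≤ |(q : ℝ) * x - a|

lemma ee_eq (x : ℝ) : ee x = e x := by
  unfold ee e
  congr 1
  push_cast
  ring

lemma exists_le {ι : Type} [Fintype ι] (f : ι → ℝ) (hf : ∀ i, 0 < f i) :
    ∃ c : ℝ, 0 < c ∧ ∀ i, c ≤ f i := by
  rcases isEmpty_or_nonempty ι with h | h
  · exact ⟨1, one_pos, fun i => h.elim i⟩
  · obtain ⟨i, hi⟩ := Finite.exists_min f
    exact ⟨f i, hf i, hi⟩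

theorem sum_small {r : ℕ} {ι : Type} [Fintype ι] {D : ι → ℕ} (hr1 : 1 ≤ r) (hr : ∀ i, r ≤ D i)
    (hD : ∀ i j, i ≠ j → D i + r ≤ D j ∨ D j + r ≤ D i) {x w : ι → ℝ} (hw : ∀ i, 1 ≤ w i)
    (hx : ∀ i, Irr (x i) (w i)) {δ : ℝ} (hδ : 0 < δ) (hδ1 : δ ≤ 1 / 2) :
    ∃ η ρ : ℝ, 0 < η ∧ 0 < ρ ∧ ∃ M0 : ℕ, ∀ M : ℕ, M0 ≤ M → ∀ N : ℕ, ∀ P : ι → ℝ[X],
      (∀ i, (P i).natDegree ≤ D i) → (∀ i, (P i).coeff (D i) = x i) →
      ∀ l : ι → Fin r → ℤ, l ≠ 0 →
      (∀ i t, |(l i t : ℝ)| ≤ (M : ℝ) ^ (ρ + ((D i : ℝ) - r + 1 - δ) / w i)) →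
      ‖∑ n ∈ range M, ee (∑ j, ∑ t : Fin r, (l j t : ℝ) *
        (P j).eval (((n + N + 1 + (t : ℕ) : ℕ)) : ℝ))‖ ≤ (M : ℝ) ^ (1 - η) := by
  classical
  -- the constants
  set Dm : ℕ := ∑ i, D i + 1 with hDm
  have hDi : ∀ i, D i ≤ Dm := fun i => by
    have := Finset.single_le_sum (f := D) (fun j _ => Nat.zero_le _) (Finset.mem_univ i)
    omega
  have hDm1 : (1 : ℝ) ≤ Dm := by
    have : 1 ≤ Dm := by omega
    exact_mod_cast this
  set W : ℝ := ∑ i, w i + 1 with hW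
  have hwW : ∀ i, w i + 1 ≤ W := fun i => by
    have := Finset.single_le_sum (f := w) (fun j _ => by linarith [hw j]) (Finset.mem_univ i)
    rw [hW]
    linarith
  have hW1 : 1 ≤ W := by
    have : 0 ≤ ∑ i, w i := Finset.sum_nonneg fun j _ => by linarith [hw j]
    rw [hW]
    linarith
  set ε : ℝ := δ / (4 * Dm) with hε
  have hε0 : 0 < ε := by positivity
  have hε1 : ε ≤ 1 := by
    rw [hε, div_le_one (by positivity)]
    linarith
  choose c hc0 hc using fun i => hx i ε hε0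
  obtain ⟨c0, hc00, hc01⟩ := exists_le c hc0
  choose cs ms hcs hI using fun s : ℕ => IW_all (s + 1) (by omega)
  set C1 : ℕ := ∑ s ∈ range (Dm + 1), cs s with hC1
  set m1 : ℕ := ∑ s ∈ range (Dm + 1), ms s with hm1
  have hC1le : ∀ s ≤ Dm, cs s ≤ C1 := fun s hs =>
    Finset.single_le_sum (f := cs) (fun j _ => Nat.zero_le _) (Finset.mem_range.2 (by omega))
  have hm1le : ∀ s ≤ Dm, ms s ≤ m1 := fun s hs =>
    Finset.single_le_sum (f := ms) (fun j _ => Nat.zero_le _) (Finset.mem_range.2 (by omega))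
  have hC11 : 1 ≤ C1 := (hcs 0).trans (hC1le 0 (by omega))
  set fac : ι → ℕ → ℕ := fun i s => (D i - s).factorial * (D i).choose (D i - s) with hfac
  set F1 : ℕ := ∑ i, ∑ s ∈ range r, fac i s + 1 with hF1
  have hF1le : ∀ i, ∀ s < r, fac i s ≤ F1 := fun i s hs => by
    have h1 : fac i s ≤ ∑ s ∈ range r, fac i s :=
      Finset.single_le_sum (f := fac i) (fun j _ => Nat.zero_le _) (Finset.mem_range.2 hs)
    have h2 : ∑ s ∈ range r, fac i s ≤ ∑ i, ∑ s ∈ range r, fac i s :=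
      Finset.single_le_sum (f := fun i => ∑ s ∈ range r, fac i s) (fun j _ => Nat.zero_le _)
        (Finset.mem_univ i)
    omega
  have hF11 : 1 ≤ F1 := by omega
  set C2 : ℝ := C1 * F1 * (r : ℝ) ^ (r + 1) with hC2
  have hC1R : (1 : ℝ) ≤ C1 := by exact_mod_cast hC11
  have hF1R : (1 : ℝ) ≤ F1 := by exact_mod_cast hF11
  have hrR : (1 : ℝ) ≤ r := by exact_mod_cast hr1
  have hC21 : 1 ≤ C2 := by
    rw [hC2]
    exact one_le_mul_of_one_le_of_one_le (one_le_mul_of_one_le_of_one_le hC1R hF1R)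
      (one_le_pow₀ hrR)
  set ρ : ℝ := δ / (8 * W) with hρ
  set η : ℝ := δ / (8 * (m1 + 1) * (1 + W)) with hη
  have hρ0 : 0 < ρ := by positivity
  have hη0 : 0 < η := by positivity
  have hρW : ρ * W = δ / 8 := by rw [hρ]; field_simp
  have hηW : m1 * η * (1 + W) ≤ δ / 8 := by
    have h1 : m1 * η * (1 + W) = δ / 8 * (m1 / (m1 + 1)) := by
      rw [hη]
      field_simp
    rw [h1]
    have h2 : (m1 : ℝ) / (m1 + 1) ≤ 1 := by
      rw [div_le_one (by positivity)]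
      linarith
    nlinarith
  -- the threshold
  have hev : ∀ᶠ M : ℕ in Filter.atTop, (C1 * C2 ^ W) / c0 < (M : ℝ) ^ (δ / 2) :=
    ((tendsto_rpow_atTop (half_pos hδ)).comp tendsto_natCast_atTop_atTop).eventually_gt_atTop _
  obtain ⟨M0, hM0⟩ := Filter.eventually_atTop.1 hev
  refine ⟨η, ρ, hη0, hρ0, max M0 1, fun M hM N P hP hPc l hl hle => ?_⟩
  have hMM0 := hM0 M (le_of_max_le_left hM)
  have hM1 : 1 ≤ M := le_of_max_le_right hM
  have hMR : (1 : ℝ) ≤ M := by exact_mod_cast hM1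
  have hMp : (0 : ℝ) < M := by linarith
  by_contra hcon
  push Not at hcon
  obtain ⟨i, s, hsr, hms, hph⟩ := phase hr hD hP hl
  have hph := hph N
  have hsD : s < D i := lt_of_lt_of_le hsr (hr i)
  obtain ⟨s1, hs1⟩ : ∃ s1, D i - s = s1 + 1 := ⟨D i - s - 1, by omega⟩
  have hs1D : s1 ≤ Dm := by have := hDi i; omega
  rw [hs1] at hph
  set u : ℝ := (M : ℝ) ^ η with hu
  have hu1 : 1 ≤ u := Real.one_le_rpow hMR hη0.le
  have hS : (M : ℝ) ≤ u * ‖∑ n ∈ range M, ee (∑ j, ∑ t : Fin r, (l j t : ℝ) *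
      (P j).eval (((n + N + 1 + (t : ℕ) : ℕ)) : ℝ))‖ := by
    calc (M : ℝ) = u * (M : ℝ) ^ (1 - η) := by
          rw [hu, ← Real.rpow_add hMp]
          simp
      _ ≤ _ := mul_le_mul_of_nonneg_left hcon.le (by linarith)
  obtain ⟨q, hq1, hq2, a, ha⟩ := hI s1 M u _ _ hM1 hu1 hph hS
  have hqR : (1 : ℝ) ≤ q := by exact_mod_cast hq1
  -- the bound `C1 u ^ m1`
  have hum : (cs s1 : ℝ) * u ^ ms s1 ≤ C1 * u ^ m1 := by
    refine mul_le_mul ?_ (pow_le_pow_right₀ hu1 (hm1le s1 hs1D)) (by positivity) (by positivity)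
    exact_mod_cast hC1le s1 hs1D
  have hum' : u ^ m1 = (M : ℝ) ^ (m1 * η) := by
    rw [hu, ← Real.rpow_natCast, ← Real.rpow_mul hMp.le]
    congr 1
    ring
  set E : ℝ := (D i : ℝ) - r + 1 - δ with hE
  have hrD : (r : ℝ) ≤ D i := by exact_mod_cast hr i
  have hE0 : 0 < E := by rw [hE]; linarith
  have hEDm : E ≤ Dm := by
    have : (D i : ℝ) ≤ Dm := by exact_mod_cast hDi i
    rw [hE]
    linarith
  set B : ℝ := (M : ℝ) ^ (ρ + E / w i) with hB
  have hmle := mom_le (l i) (B := B) (fun t => hle i t) hsr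
  -- the integer
  set Z : ℕ := q * fac i s * (mom (l i) s).natAbs with hZ
  have hZabs : ((mom (l i) s).natAbs : ℝ) = |((mom (l i) s : ℤ) : ℝ)| := by
    rw [Nat.cast_natAbs]
    push_cast
    rfl
  have hfac0 : 0 < fac i s := Nat.mul_pos (Nat.factorial_pos _) (Nat.choose_pos (by omega))
  have hZ1 : 1 ≤ Z := Nat.mul_pos (Nat.mul_pos hq1 hfac0) (Int.natAbs_pos.2 hms)
  have hZR : (1 : ℝ) ≤ Z := by exact_mod_cast hZ1
  have hZle : (Z : ℝ) ≤ C2 * (M : ℝ) ^ (m1 * η + (ρ + E / w i)) := by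
    rw [hZ]
    push_cast
    rw [hZabs]
    calc (q : ℝ) * (fac i s : ℝ) * |((mom (l i) s : ℤ) : ℝ)|
        ≤ (C1 * (M : ℝ) ^ (m1 * η)) * F1 * ((r : ℝ) ^ (r + 1) * B) := by
          have h1 : (q : ℝ) ≤ C1 * (M : ℝ) ^ (m1 * η) := by
            rw [← hum']
            exact hq2.trans hum
          have h2 : (fac i s : ℝ) ≤ F1 := by exact_mod_cast hF1le i s hsr
          gcongr
      _ = C2 * (M : ℝ) ^ (m1 * η + (ρ + E / w i)) := by
          rw [hC2, hB, Real.rpow_add hMp (m1 * η)]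
          ring
  -- approximation
  have happ : ∃ a' : ℤ, |(Z : ℝ) * x i - a'| ≤ C1 * (M : ℝ) ^ (m1 * η - (E + δ)) := by
    have h1 : |(q : ℝ) * (((D i - s).factorial * (D i).choose (D i - s) : ℕ) * (P i).coeff (D i) *
        ((mom (l i) s : ℤ) : ℝ)) - a| ≤ C1 * (M : ℝ) ^ (m1 * η - (E + δ)) := by
      rw [hs1]
      refine ha.trans ?_
      rw [div_le_iff₀ (by positivity)]
      calc (cs s1 : ℝ) * u ^ ms s1 ≤ C1 * u ^ m1 := hum
        _ = C1 * (M : ℝ) ^ (m1 * η) := by rw [hum']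
        _ ≤ C1 * ((M : ℝ) ^ (m1 * η - (E + δ)) * (M : ℝ) ^ (s1 + 1)) := by
            refine mul_le_mul_of_nonneg_left ?_ (by positivity)
            rw [← Real.rpow_natCast, ← Real.rpow_add hMp]
            apply Real.rpow_le_rpow_of_exponent_le hMR
            have h3 : E + δ ≤ ((s1 + 1 : ℕ) : ℝ) := by
              rw [← hs1, Nat.cast_sub hsD.le, hE]
              have : (s : ℝ) + 1 ≤ r := by exact_mod_cast hsr
              linarith
            linarith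
        _ = C1 * (M : ℝ) ^ (m1 * η - (E + δ)) * (M : ℝ) ^ (s1 + 1) := by ring
    rw [hPc i] at h1
    rcases le_total 0 (mom (l i) s) with h0 | h0
    · refine ⟨a, ?_⟩
      have h2 : |((mom (l i) s : ℤ) : ℝ)| = ((mom (l i) s : ℤ) : ℝ) :=
        abs_of_nonneg (by exact_mod_cast h0)
      have h3 : (Z : ℝ) * x i - a = (q : ℝ) * (((D i - s).factorial * (D i).choose (D i - s) : ℕ) *
          x i * ((mom (l i) s : ℤ) : ℝ)) - a := by
        rw [hZ]
        push_cast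
        rw [hZabs, h2, hfac]
        push_cast
        ring
      rw [h3]
      exact h1
    · refine ⟨-a, ?_⟩
      have h2 : |((mom (l i) s : ℤ) : ℝ)| = -((mom (l i) s : ℤ) : ℝ) :=
        abs_of_nonpos (by exact_mod_cast h0)
      have h3 : (Z : ℝ) * x i - ((-a : ℤ) : ℝ) =
          -((q : ℝ) * (((D i - s).factorial * (D i).choose (D i - s) : ℕ) *
            x i * ((mom (l i) s : ℤ) : ℝ)) - a) := by
        rw [hZ]
        push_cast
        rw [hZabs, h2, hfac]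
        push_cast
        ring
      rw [h3, abs_neg]
      exact h1
  obtain ⟨a', ha'⟩ := happ
  have hlow := hc i Z hZ1 a'
  have hwi := hw i
  have hwε : 0 ≤ w i + ε := by linarith
  have hZp : (0 : ℝ) < Z := by linarith
  -- the contradiction
  have h1 : c0 * (Z : ℝ) ^ (-(w i + ε)) ≤ C1 * (M : ℝ) ^ (m1 * η - (E + δ)) := by
    refine le_trans ?_ (hlow.trans ha')
    exact mul_le_mul_of_nonneg_right (hc01 i) (by positivity)
  have h2 : c0 ≤ C1 * (M : ℝ) ^ (m1 * η - (E + δ)) * (Z : ℝ) ^ (w i + ε) := by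
    have h3 : c0 = c0 * (Z : ℝ) ^ (-(w i + ε)) * (Z : ℝ) ^ (w i + ε) := by
      rw [mul_assoc, ← Real.rpow_add hZp]
      simp
    rw [h3]
    exact mul_le_mul_of_nonneg_right h1 (by positivity)
  have h3 : (Z : ℝ) ^ (w i + ε) ≤ C2 ^ W * (M : ℝ) ^ ((m1 * η + (ρ + E / w i)) * (w i + ε)) := by
    calc (Z : ℝ) ^ (w i + ε) ≤ (C2 * (M : ℝ) ^ (m1 * η + (ρ + E / w i))) ^ (w i + ε) :=
          Real.rpow_le_rpow hZp.le hZle hwε
      _ = C2 ^ (w i + ε) * (M : ℝ) ^ ((m1 * η + (ρ + E / w i)) * (w i + ε)) := by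
          rw [Real.mul_rpow (by positivity) (by positivity), ← Real.rpow_mul hMp.le]
      _ ≤ C2 ^ W * (M : ℝ) ^ ((m1 * η + (ρ + E / w i)) * (w i + ε)) := by
          refine mul_le_mul_of_nonneg_right ?_ (by positivity)
          exact Real.rpow_le_rpow_of_exponent_le hC21 (by linarith [hwW i])
  have h4 : (m1 * η - (E + δ)) + (m1 * η + (ρ + E / w i)) * (w i + ε) ≤ -(δ / 2) := by
    have e1 : E / w i * (w i + ε) = E + E * ε / w i := by
      have : w i ≠ 0 := by linarith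
      field_simp
    have e2 : E * ε / w i ≤ δ / 4 := by
      rw [div_le_iff₀ (by linarith)]
      have e3 : E * ε ≤ δ / 4 := by
        calc E * ε ≤ Dm * ε := by gcongr
          _ = δ / 4 := by rw [hε]; field_simp
      nlinarith
    have e4 : (m1 : ℝ) * η * (w i + ε) ≤ m1 * η * W := by
      have : w i + ε ≤ W := by linarith [hwW i]
      gcongr
    have e5 : ρ * (w i + ε) ≤ δ / 8 := by
      rw [← hρW]
      have : w i + ε ≤ W := by linarith [hwW i]
      gcongr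
    have e6 : (m1 * η + (ρ + E / w i)) * (w i + ε) =
        m1 * η * (w i + ε) + ρ * (w i + ε) + E / w i * (w i + ε) := by ring
    rw [e6, e1]
    have e7 : (m1 : ℝ) * η * (1 + W) = m1 * η + m1 * η * W := by ring
    linarith
  have h5 : c0 ≤ C1 * C2 ^ W * (M : ℝ) ^ (-(δ / 2)) := by
    calc c0 ≤ C1 * (M : ℝ) ^ (m1 * η - (E + δ)) * (Z : ℝ) ^ (w i + ε) := h2
      _ ≤ C1 * (M : ℝ) ^ (m1 * η - (E + δ)) *
          (C2 ^ W * (M : ℝ) ^ ((m1 * η + (ρ + E / w i)) * (w i + ε))) :=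
          mul_le_mul_of_nonneg_left h3 (by positivity)
      _ = C1 * C2 ^ W * (M : ℝ) ^ ((m1 * η - (E + δ)) +
          (m1 * η + (ρ + E / w i)) * (w i + ε)) := by
          rw [Real.rpow_add hMp]
          ring
      _ ≤ C1 * C2 ^ W * (M : ℝ) ^ (-(δ / 2)) := by
          refine mul_le_mul_of_nonneg_left ?_ (by positivity)
          exact Real.rpow_le_rpow_of_exponent_le hMR h4
  rw [div_lt_iff₀ hc00] at hMM0
  rw [Real.rpow_neg hMp.le] at h5
  have h6 : (0 : ℝ) < (M : ℝ) ^ (δ / 2) := by positivity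
  have h7 : c0 * (M : ℝ) ^ (δ / 2) ≤ C1 * C2 ^ W := by
    calc c0 * (M : ℝ) ^ (δ / 2) ≤ C1 * C2 ^ W * ((M : ℝ) ^ (δ / 2))⁻¹ * (M : ℝ) ^ (δ / 2) :=
          mul_le_mul_of_nonneg_right h5 h6.le
      _ = C1 * C2 ^ W := by field_simp
  linarith

end Pool.Agent.Y603.PC
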