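import Pool.Agent.Y603.PC.Joint
import Pool.Agent.Y603.PC.Sum

/-!
# The digits of several real polynomials against circuits
-/

set_option autoImplicit false

namespace Pool.Agent.Y603.PC

open Finset MeasureTheory Real Polynomial
open Pool.Agent.Y933.KD (e unif unif_prob integral_unif real_unif)
open Pool.Agent.Helper602.MK (ee)

lemma sum_Ioc_range {E : Type*} [AddCommMonoid E] (f : ℕ → E) (N M : ℕ) :
    ∑ m ∈ Ioc N (N + M), f m = ∑ n ∈ range M, f (n + N + 1) := by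
  induction M with
  | zero => simp
  | succ M ih =>
    rw [← add_assoc, Finset.sum_Ioc_succ_top (by omega), sum_range_succ, ih]
    congr 2
    omega

lemma unif_set (s : Finset ℕ) (x : ℕ → ℝ) (f : ℝ → Bool) (hE : MeasurableSet {ω | f ω = true}) :
    (unif s x).real {ω | f ω = true} = ((s.filter fun m => f (x m) = true).card : ℝ) / s.card := by
  classical
  rw [real_unif s x hE]
  congr 3

theorem poly_fool {b : ℕ} (hb : 2 ≤ b) (d : ℕ) {r : ℕ} {ι : Type} [Fintype ι] [DecidableEq ι]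
    {D : ι → ℕ} (hr1 : 1 ≤ r) (hr : ∀ i, r ≤ D i)
    (hD : ∀ i j, i ≠ j → D i + r ≤ D j ∨ D j + r ≤ D i) {x w : ι → ℝ} (hw : ∀ i, 1 ≤ w i)
    (hx : ∀ i, Irr (x i) (w i)) {δ : ℝ} (hδ : 0 < δ) :
    ∃ c : ℝ, 0 < c ∧ ∃ M0 : ℕ, ∀ M : ℕ, M0 ≤ M → ∀ N : ℕ, ∀ P : ι → ℝ[X],
      (∀ i, (P i).natDegree = D i ∧ (P i).leadingCoeff = x i) → ∀ n : ι × Fin r → ℕ,
      (∀ t, w t.1 * n t ≤ (D t.1 - r + 1 - δ) * logb b M) →
      ∀ C : Circuit (Σ t : ι × Fin r, Fin (n t)), (∀ v, C.depth v ≤ d) →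
      (Nat.card C.Node : ℝ) ≤ exp (log M ^ c) → ∀ v : C.Node,
      |(((Ioc N (N + M)).filter fun m : ℕ => C.val v (fun s =>
          digit b ((P s.1.1).eval ((m + (s.1.2 : ℕ) : ℕ) : ℝ)) (s.2 + 1)) = true).card : ℝ) / M -
        ((univ.filter fun X : (Σ t : ι × Fin r, Fin (n t)) → Fin b =>
          C.val v (fun s => (X s : ℕ)) = true).card : ℝ) / (b : ℝ) ^ (∑ t, n t)| ≤
          exp (-(log M ^ c)) := by
  have hbR : (2 : ℝ) ≤ b := by exact_mod_cast hb
  have hb1 : (1 : ℝ) < b := by linarith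
  set δ' := min δ (1 / 2) with hδ'
  have hδ'0 : 0 < δ' := lt_min hδ (by norm_num)
  have hδ'1 : δ' ≤ 1 / 2 := min_le_right _ _
  have hδ'2 : δ' ≤ δ := min_le_left _ _
  obtain ⟨η, ρ, hη, hρ, M1, hM1⟩ := sum_small hr1 hr hD hw hx hδ'0 hδ'1
  set A : ℝ := ∑ t : ι × Fin r, (D t.1 : ℝ) with hA
  have hA0 : 0 ≤ A := Finset.sum_nonneg fun t _ => Nat.cast_nonneg _
  obtain ⟨c, hc, M2, hM2⟩ := joint_fool hb d hA0 hη hρ
  refine ⟨c, hc, max (max M1 M2) 2, fun M hM N P hP n hn C hCd hCs v => ?_⟩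
  have hMM1 : M1 ≤ M := le_of_max_le_left (le_of_max_le_left hM)
  have hMM2 : M2 ≤ M := le_of_max_le_right (le_of_max_le_left hM)
  have hMM3 : 2 ≤ M := le_of_max_le_right hM
  have hM2R : (2 : ℝ) ≤ M := by exact_mod_cast hMM3
  have hMR : (1 : ℝ) ≤ M := by linarith
  have hMp : (0 : ℝ) < M := by linarith
  have hlogb : 0 < logb b M := Real.logb_pos hb1 (by linarith)
  have hbM : (b : ℝ) ^ logb b M = M := Real.rpow_logb (by linarith) (by linarith) hMp
  -- the numbers of digits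
  have hdig : ∀ t : ι × Fin r, (b : ℝ) ^ n t ≤ (M : ℝ) ^ (((D t.1 : ℝ) - r + 1 - δ') / w t.1) := by
    intro t
    have hwt := hw t.1
    have h1 : (n t : ℝ) ≤ logb b M * (((D t.1 : ℝ) - r + 1 - δ') / w t.1) := by
      rw [← mul_div_assoc, le_div_iff₀ (by linarith)]
      have h2 := hn t
      have h3 : ((D t.1 : ℝ) - r + 1 - δ) * logb b M ≤ ((D t.1 : ℝ) - r + 1 - δ') * logb b M :=
        mul_le_mul_of_nonneg_right (by linarith) hlogb.le
      linarith
    calc (b : ℝ) ^ n t = (b : ℝ) ^ (n t : ℝ) := (Real.rpow_natCast _ _).symm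
      _ ≤ (b : ℝ) ^ (logb b M * (((D t.1 : ℝ) - r + 1 - δ') / w t.1)) :=
          Real.rpow_le_rpow_of_exponent_le hb1.le h1
      _ = _ := by rw [Real.rpow_mul (by linarith), hbM]
  have hdig2 : ∀ t : ι × Fin r, (b : ℝ) ^ n t ≤ (M : ℝ) ^ (D t.1 : ℝ) := by
    intro t
    refine (hdig t).trans (Real.rpow_le_rpow_of_exponent_le hMR ?_)
    have hwt := hw t.1
    have hrR : (1 : ℝ) ≤ r := by exact_mod_cast hr1
    have hrD : (r : ℝ) ≤ D t.1 := by exact_mod_cast hr t.1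
    rw [div_le_iff₀ (by linarith)]
    have h0 : (0 : ℝ) ≤ D t.1 := Nat.cast_nonneg _
    nlinarith
  have htot : (b : ℝ) ^ (∑ t, n t) ≤ (M : ℝ) ^ A := by
    rw [← Finset.prod_pow_eq_pow_sum, hA, Real.rpow_sum_of_pos hMp]
    exact Finset.prod_le_prod (fun t _ => by positivity) fun t _ => hdig2 t
  have hne : (Ioc N (N + M)).Nonempty := by
    rw [Finset.nonempty_Ioc]
    omega
  have hprob := unif_prob hne fun m : ℕ => (m : ℝ)
  set Y : ι × Fin r → ℝ → ℝ := fun t ω => (P t.1).eval (ω + (t.2 : ℕ)) with hY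
  have hYm : ∀ t, Measurable (Y t) := fun t => by
    have : Continuous (Y t) := (P t.1).continuous.comp (by fun_prop)
    exact this.measurable
  obtain ⟨hmeas, key⟩ := hM2 M hMM2 (ι × Fin r) n htot
    (unif (Ioc N (N + M)) fun m : ℕ => (m : ℝ)) Y hYm (by
      intro l hl hle
      have h1 := hM1 M hMM1 N P (fun i => (hP i).1.le) (fun i => by
        rw [← (hP i).1, coeff_natDegree]
        exact (hP i).2) (fun i t => l (i, t)) (by
          intro h0
          apply hl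
          funext t
          exact congrFun (congrFun h0 t.1) t.2) (by
          intro i t
          refine (hle (i, t)).trans ?_
          rw [Real.rpow_add hMp]
          exact mul_le_mul_of_nonneg_left (hdig (i, t)) (by positivity))
      rw [integral_unif, Nat.card_Ioc, Nat.add_sub_cancel_left, sum_Ioc_range, norm_mul]
      have h2 : ‖(1 / ((M : ℕ) : ℂ))‖ = (M : ℝ)⁻¹ := by simp
      have h3 : ∑ n ∈ range M, e (∑ t : ι × Fin r, l t * Y t ((n + N + 1 : ℕ) : ℝ)) =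
          ∑ n ∈ range M, ee (∑ j, ∑ t : Fin r, (l (j, t) : ℝ) *
            (P j).eval (((n + N + 1 + (t : ℕ) : ℕ)) : ℝ)) := by
        refine Finset.sum_congr rfl fun n _ => ?_
        rw [ee_eq, Fintype.sum_prod_type]
        congr 1
        refine Finset.sum_congr rfl fun j _ => Finset.sum_congr rfl fun t _ => ?_
        rw [hY]
        push_cast
        rfl
      rw [h2, h3]
      calc (M : ℝ)⁻¹ * _ ≤ (M : ℝ)⁻¹ * (M : ℝ) ^ (1 - η) :=
            mul_le_mul_of_nonneg_left h1 (by positivity)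
        _ = (M : ℝ) ^ (-η) := by
            rw [sub_eq_add_neg, Real.rpow_add hMp, Real.rpow_one]
            field_simp) C hCd hCs v
  have e1 : (unif (Ioc N (N + M)) fun m : ℕ => (m : ℝ)).real
      {ω | C.val v (fun s => digit b (Y s.1 ω) (s.2 + 1)) = true} =
      (((Ioc N (N + M)).filter fun m : ℕ =>
        C.val v (fun s => digit b (Y s.1 (m : ℝ)) (s.2 + 1)) = true).card : ℝ) / M := by
    have h := unif_set (Ioc N (N + M)) (fun m : ℕ => (m : ℝ))
      (fun ω => C.val v (fun s => digit b (Y s.1 ω) (s.2 + 1))) hmeas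
    rw [Nat.card_Ioc, Nat.add_sub_cancel_left] at h
    exact h
  rw [e1] at key
  have e3 : ∀ m : ℕ, (fun s : (Σ t : ι × Fin r, Fin (n t)) =>
      digit b ((P s.1.1).eval ((m + (s.1.2 : ℕ) : ℕ) : ℝ)) (s.2 + 1)) =
      fun s => digit b (Y s.1 (m : ℝ)) (s.2 + 1) := by
    intro m
    funext s
    rw [hY]
    push_cast
    rfl
  simp only [e3]
  exact key

end Pool.Agent.Y603.PC
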