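import Pool.Agent.Y603.PC.MTest
import Pool.Agent.Y603.BR.Dig

/-!
# The joint law of the digits of several random real numbers
-/

set_option autoImplicit false

namespace Pool.Agent.Y603.PC

open Finset MeasureTheory
open Pool.Agent.Y933.KD (ind e e_sum Leb measurable_ind hat hat_Leb e_zero)
open Pool.Agent.Y603.BR (dg dg_lt dg_iff measurable_dg gdig measurableSet_gdig law law_Leb unif_J)

section
variable {τ : Type} [Fintype τ] {b : ℕ} (hb : 0 < b) (n : τ → ℕ) {N : ℕ}
  (ε : Fin N ≃ (Σ t : τ, Fin (n t)))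
variable {Ω : Type*} [MeasurableSpace Ω]

/-- The word of the digits of several numbers. -/
noncomputable def mdig (y : τ → ℝ) (j : Fin N) : Fin b :=
  ⟨dg b (y (ε j).1) ((ε j).2 + 1), dg_lt hb _ _⟩

lemma measurableSet_mdig (Y : τ → Ω → ℝ) (hY : ∀ t, Measurable (Y t)) (x : Fin N → Fin b) :
    MeasurableSet {ω | mdig hb n ε (fun t => Y t ω) = x} := by
  have h1 : {ω | mdig hb n ε (fun t => Y t ω) = x} =
      ⋂ j : Fin N, {ω | dg b (Y (ε j).1 ω) ((ε j).2 + 1) = x j} := by
    ext ω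
    simp only [Set.mem_ofPred_eq, Set.mem_iInter]
    constructor
    · intro h j
      have := congrFun h j
      rw [← this]
      rfl
    · intro h
      funext j
      exact Fin.ext (h j)
  rw [h1]
  exact MeasurableSet.iInter fun j => (measurable_dg b _).comp (hY _) (measurableSet_singleton _)

/-- The law of the word. -/
noncomputable def mlaw (P : Measure Ω) (Y : τ → Ω → ℝ) (x : Fin N → Fin b) : ℝ :=
  P.real {ω | mdig hb n ε (fun t => Y t ω) = x}

omit [Fintype τ] in
lemma mlaw_nonneg (P : Measure Ω) (Y : τ → Ω → ℝ) (x : Fin N → Fin b) :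
    0 ≤ mlaw hb n ε P Y x := measureReal_nonneg

open Classical in
lemma mlaw_event (P : Measure Ω) [IsProbabilityMeasure P] (Y : τ → Ω → ℝ)
    (hY : ∀ t, Measurable (Y t)) (p : (Fin N → Fin b) → Prop) :
    P.real {ω | p (mdig hb n ε fun t => Y t ω)} =
      ∑ x, mlaw hb n ε P Y x * (if p x then 1 else 0) := by
  have h1 : {ω | p (mdig hb n ε fun t => Y t ω)} =
      ⋃ x ∈ univ.filter p, {ω | mdig hb n ε (fun t => Y t ω) = x} := by
    ext ω
    simp
  rw [h1, measureReal_biUnion_finset]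
  · rw [Finset.sum_filter]
    refine Finset.sum_congr rfl fun x _ => ?_
    unfold mlaw
    split_ifs <;> ring
  · intro x _ x' _ hne
    rw [Function.onFun, Set.disjoint_left]
    intro y hy hy'
    exact hne (hy.symm.trans hy')
  · intro x _
    exact measurableSet_mdig hb n ε Y hY x

lemma mlaw_sum (P : Measure Ω) [IsProbabilityMeasure P] (Y : τ → Ω → ℝ)
    (hY : ∀ t, Measurable (Y t)) : ∑ x, mlaw hb n ε P Y x = 1 := by
  classical
  have h := mlaw_event hb n ε P Y hY fun _ => True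
  simp only [if_true, mul_one] at h
  rw [← h]
  simp

/-- The random numbers of the digits. -/
noncomputable def XX (J : Finset (Fin N)) (Y : τ → Ω → ℝ) (i : Fin J.card) (ω : Ω) : ℝ :=
  (b : ℝ) ^ ((ε (J.orderEmbOfFin rfl i)).2 : ℕ) * Y (ε (J.orderEmbOfFin rfl i)).1 ω

open Classical in
lemma mlaw_J (P : Measure Ω) [IsProbabilityMeasure P] (Y : τ → Ω → ℝ)
    (hY : ∀ t, Measurable (Y t)) (J : Finset (Fin N)) (a : Fin N → Fin b) :
    ∑ x, mlaw hb n ε P Y x * (if ∀ j ∈ J, x j = a j then 1 else 0) =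
      ∫ ω, ∏ i, ind (((a (J.orderEmbOfFin rfl i) : ℕ) : ℝ) / b)
        ((((a (J.orderEmbOfFin rfl i) : ℕ) : ℝ) + 1) / b) (XX (b := b) n ε J Y i ω) ∂P := by
  have h0 : ∑ x, mlaw hb n ε P Y x * (if ∀ j ∈ J, x j = a j then (1 : ℝ) else 0) =
      P.real {ω | ∀ j ∈ J, mdig hb n ε (fun t => Y t ω) j = a j} := by
    rw [mlaw_event hb n ε P Y hY fun x => ∀ j ∈ J, x j = a j]
    refine Finset.sum_congr rfl fun x _ => ?_
    congr 1
    split_ifs <;> rfl
  have hiff : ∀ ω, (∀ j ∈ J, mdig hb n ε (fun t => Y t ω) j = a j) ↔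
      ∀ i : Fin J.card, ((a (J.orderEmbOfFin rfl i) : ℕ) : ℝ) / b ≤
        Int.fract (XX (b := b) n ε J Y i ω) ∧
        Int.fract (XX (b := b) n ε J Y i ω) < (((a (J.orderEmbOfFin rfl i) : ℕ) : ℝ) + 1) / b := by
    intro ω
    constructor
    · intro h i
      have h1 := h (J.orderEmbOfFin rfl i) (J.orderEmbOfFin_mem rfl i)
      exact (dg_iff hb _ _ (a (J.orderEmbOfFin rfl i)).2).1 (congrArg Fin.val h1)
    · intro h j hj
      have hr : j ∈ Set.range (J.orderEmbOfFin rfl) := by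
        rw [Finset.range_orderEmbOfFin]; exact hj
      obtain ⟨i, rfl⟩ := hr
      exact Fin.ext ((dg_iff hb _ _ (a (J.orderEmbOfFin rfl i)).2).2 (h i))
  have hmeas : MeasurableSet {ω | ∀ j ∈ J, mdig hb n ε (fun t => Y t ω) j = a j} := by
    have h1 : {ω | ∀ j ∈ J, mdig hb n ε (fun t => Y t ω) j = a j} =
        ⋃ x ∈ (univ : Finset (Fin N → Fin b)).filter (fun x => ∀ j ∈ J, x j = a j),
          {ω | mdig hb n ε (fun t => Y t ω) = x} := by
      ext ω
      simp
    rw [h1]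
    exact Finset.measurableSet_biUnion _ fun x _ => measurableSet_mdig hb n ε Y hY x
  rw [h0, ← integral_indicator_one hmeas]
  refine integral_congr_ae (Filter.Eventually.of_forall fun ω => ?_)
  simp only
  by_cases hω : ∀ j ∈ J, mdig hb n ε (fun t => Y t ω) j = a j
  · rw [Set.indicator_of_mem (show ω ∈ {ω | ∀ j ∈ J, mdig hb n ε (fun t => Y t ω) j = a j}
      from hω), Pi.one_apply]
    symm
    refine Finset.prod_eq_one fun i _ => ?_
    unfold ind
    rw [if_pos ((hiff ω).1 hω i)]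
  · rw [Set.indicator_of_notMem (show ω ∉ {ω | ∀ j ∈ J, mdig hb n ε (fun t => Y t ω) j = a j}
      from hω)]
    rw [hiff] at hω
    push Not at hω
    obtain ⟨i, hi⟩ := hω
    symm
    refine Finset.prod_eq_zero (Finset.mem_univ i) ?_
    unfold ind
    rw [if_neg]
    rintro ⟨h1, h2⟩
    exact absurd h2 (not_lt.2 (hi h1))

/-- The digits of independent uniform numbers. -/
lemma mlaw_unif (x : Fin N → Fin b) :
    mlaw hb n ε (Measure.pi fun _ : τ => Leb) (fun t y => y t) x = ((b : ℝ) ^ N)⁻¹ := by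
  have hset : {y : τ → ℝ | mdig hb n ε (fun t => y t) = x} =
      Set.pi Set.univ fun t => {z | gdig hb (n t) z = fun i => x (ε.symm ⟨t, i⟩)} := by
    ext y
    simp only [Set.mem_ofPred_eq, Set.mem_pi, Set.mem_univ, true_implies]
    constructor
    · intro h t
      funext i
      have h1 := congrFun h (ε.symm ⟨t, i⟩)
      rw [← h1]
      apply Fin.ext
      show dg b (y t) (i + 1) = dg b (y (ε (ε.symm ⟨t, i⟩)).1) ((ε (ε.symm ⟨t, i⟩)).2 + 1)
      rw [Equiv.apply_symm_apply]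
    · intro h
      funext j
      have h1 := congrFun (h (ε j).1) (ε j).2
      have h2 : ε.symm ⟨(ε j).1, (ε j).2⟩ = j := ε.symm_apply_apply j
      rw [h2] at h1
      exact h1
  have hN : N = ∑ t, n t := by
    have := Fintype.card_congr ε
    rw [Fintype.card_fin, Fintype.card_sigma] at this
    simpa using this
  unfold mlaw Measure.real
  rw [hset, Measure.pi_pi, ENNReal.toReal_prod]
  have h1 : ∀ t : τ, (Leb {z | gdig hb (n t) z = fun i => x (ε.symm ⟨t, i⟩)}).toReal =
      ((b : ℝ) ^ n t)⁻¹ := fun t => law_Leb hb (n t) _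
  simp only [h1]
  rw [Finset.prod_inv_distrib, Finset.prod_pow_eq_pow_sum, hN]

lemma ch_pi (l : τ → ℤ) :
    ∫ y : τ → ℝ, e (∑ t, l t * y t) ∂(Measure.pi fun _ : τ => Leb) = ∏ t, hat Leb (l t) := by
  simp only [e_sum]
  rw [integral_fintype_prod_eq_prod (fun t (z : ℝ) => e (l t * z))]
  rfl

/-- The total frequency. -/
noncomputable def tot (J : Finset (Fin N)) (h : Fin J.card → ℤ) (t : τ) : ℤ :=
  by
    classical
    exact ∑ i, if (ε (J.orderEmbOfFin rfl i)).1 = t then
      h i * (b : ℤ) ^ ((ε (J.orderEmbOfFin rfl i)).2 : ℕ) else 0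

lemma sum_XX (J : Finset (Fin N)) (h : Fin J.card → ℤ) (Y : τ → Ω → ℝ) (ω : Ω) :
    ∑ i, h i * XX (b := b) n ε J Y i ω = ∑ t, tot (b := b) n ε J h t * Y t ω := by
  classical
  unfold tot XX
  have h1 : ∀ t : τ, (((∑ i, if (ε (J.orderEmbOfFin rfl i)).1 = t then
      h i * (b : ℤ) ^ ((ε (J.orderEmbOfFin rfl i)).2 : ℕ) else 0 : ℤ)) : ℝ) * Y t ω =
      ∑ i, if (ε (J.orderEmbOfFin rfl i)).1 = t then
        h i * ((b : ℝ) ^ ((ε (J.orderEmbOfFin rfl i)).2 : ℕ) * Y t ω) else 0 := by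
    intro t
    rw [Int.cast_sum, Finset.sum_mul]
    refine Finset.sum_congr rfl fun i _ => ?_
    split_ifs
    · push_cast; ring
    · simp
  rw [Finset.sum_congr rfl fun t _ => h1 t, Finset.sum_comm]
  refine Finset.sum_congr rfl fun i _ => ?_
  rw [Finset.sum_ite_eq]
  simp

lemma tot_le (J : Finset (Fin N)) (h : Fin J.card → ℤ) {H : ℕ} (hh : ∀ i, |h i| ≤ H) (hb1 : 1 ≤ b)
    (t : τ) : |(tot (b := b) n ε J h t : ℝ)| ≤ J.card * (H * (b : ℝ) ^ n t) := by
  classical
  have hbR : (1 : ℝ) ≤ b := by exact_mod_cast hb1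
  unfold tot
  push_cast
  refine (Finset.abs_sum_le_sum_abs _ _).trans ?_
  calc _ ≤ ∑ _i : Fin J.card, (H : ℝ) * (b : ℝ) ^ n t := by
        refine Finset.sum_le_sum fun i _ => ?_
        split_ifs with hi
        · rw [abs_mul]
          have h3 : |(h i : ℝ)| ≤ H := by exact_mod_cast hh i
          have h4 : |(b : ℝ) ^ ((ε (J.orderEmbOfFin rfl i)).2 : ℕ)| ≤ (b : ℝ) ^ n t := by
            rw [abs_of_nonneg (by positivity)]
            refine pow_le_pow_right₀ hbR ?_
            have h5 := (ε (J.orderEmbOfFin rfl i)).2.2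
            rw [← hi]
            exact h5.le
          exact mul_le_mul h3 h4 (abs_nonneg _) (by positivity)
        · rw [abs_zero]; positivity
    _ = J.card * (H * (b : ℝ) ^ n t) := by
        rw [Finset.sum_const, Finset.card_univ, Fintype.card_fin, nsmul_eq_mul]

open Classical in
/-- The joint distribution of few digits of several random numbers. -/
theorem mlaw_bias (P : Measure Ω) [IsProbabilityMeasure P] (Y : τ → Ω → ℝ)
    (hY : ∀ t, Measurable (Y t)) {K k : ℕ} (hK : 0 < K) {Δ : ℝ} (hΔ0 : 0 ≤ Δ)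
    (hΔ : ∀ l : τ → ℤ, l ≠ 0 → (∀ t, |(l t : ℝ)| ≤ k * (K : ℝ) ^ 3 * (b : ℝ) ^ n t) →
      ‖∫ ω, e (∑ t, l t * Y t ω) ∂P‖ ≤ Δ) (J : Finset (Fin N)) (hJ : J.card ≤ k)
    (a : Fin N → Fin b) :
    |∑ x, mlaw hb n ε P Y x * (if ∀ j ∈ J, x j = a j then 1 else 0) - ((b : ℝ) ^ J.card)⁻¹| ≤
      (2 * (K : ℝ) ^ 3 + 1) ^ k * Δ + k * (12 / K + 5 * Δ) := by
  have hbR : (1 : ℝ) ≤ b := by exact_mod_cast hb
  have hKR : (0 : ℝ) < K := by exact_mod_cast hK
  have hYm : ∀ t, Measurable fun y : τ → ℝ => y t := fun t => measurable_pi_apply t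
  have h1 : ((b : ℝ) ^ J.card)⁻¹ =
      ∑ x, mlaw hb n ε (Measure.pi fun _ : τ => Leb) (fun t y => y t) x *
        (if ∀ j ∈ J, x j = a j then 1 else 0) := by
    rw [← unif_J hb N J a]
    refine Finset.sum_congr rfl fun x _ => ?_
    rw [mlaw_unif]
  have hb' : (b : ℤ) ≠ 0 := by exact_mod_cast hb.ne'
  rw [h1, mlaw_J hb n ε P Y hY, mlaw_J hb n ε _ (fun t (y : τ → ℝ) => y t) hYm]
  have h2 := mtest hK P (Measure.pi fun _ : τ => Leb) (XX (b := b) n ε J Y)
    (XX (b := b) n ε J fun t (y : τ → ℝ) => y t) (fun i => (hY _).const_mul _)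
    (fun i => (hYm _).const_mul _) Δ hΔ0 (by
      intro h hh
      unfold ch
      simp only [sum_XX]
      rw [ch_pi]
      by_cases h0 : tot (b := b) n ε J h = 0
      · simp [h0, hat, e_zero, hΔ0]
      · obtain ⟨t, ht⟩ := Function.ne_iff.1 h0
        rw [Finset.prod_eq_zero (Finset.mem_univ t) (hat_Leb _ ht), sub_zero]
        refine hΔ _ h0 fun t => ?_
        refine (tot_le n ε J h (H := K ^ 3) (fun i => by push_cast; exact hh i) hb t).trans ?_
        have h4 : (J.card : ℝ) ≤ k := by exact_mod_cast hJ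
        push_cast
        rw [mul_assoc]
        gcongr) (by
      intro i h hh
      have h3 : ∀ y : τ → ℝ, (h : ℝ) * XX (b := b) n ε J (fun t (y : τ → ℝ) => y t) i y =
          ∑ t, ((if t = (ε (J.orderEmbOfFin rfl i)).1 then
            h * (b : ℤ) ^ ((ε (J.orderEmbOfFin rfl i)).2 : ℕ) else 0 : ℤ) : ℝ) * y t := by
        intro y
        rw [Finset.sum_eq_single (ε (J.orderEmbOfFin rfl i)).1]
        · rw [if_pos rfl]
          unfold XX
          push_cast
          ring
        · intro t _ ht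
          rw [if_neg ht]
          simp
        · intro hi
          exact absurd (Finset.mem_univ _) hi
      simp only [h3]
      rw [ch_pi]
      refine Finset.prod_eq_zero (Finset.mem_univ (ε (J.orderEmbOfFin rfl i)).1) ?_
      rw [if_pos rfl]
      exact hat_Leb _ (mul_ne_zero hh (pow_ne_zero _ hb')))
    (fun i => ((a (J.orderEmbOfFin rfl i) : ℕ) : ℝ) / b)
    (fun i => (((a (J.orderEmbOfFin rfl i) : ℕ) : ℝ) + 1) / b)
    (fun i => by positivity) (fun i => by
      rw [div_le_one (by linarith)]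
      have := (a (J.orderEmbOfFin rfl i)).2
      exact_mod_cast this)
  refine h2.trans ?_
  have h3 : (2 * (K : ℝ) ^ 3 + 1) ^ J.card ≤ (2 * (K : ℝ) ^ 3 + 1) ^ k :=
    pow_le_pow_right₀ (by nlinarith [pow_pos hKR 3]) hJ
  have h4 : (J.card : ℝ) ≤ k := by exact_mod_cast hJ
  have h5 : 0 ≤ 12 / (K : ℝ) + 5 * Δ := by positivity
  gcongr

end

end Pool.Agent.Y603.PC
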