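import Pool.Agent.Y603.PC.Defs
import Pool.Agent.Y603.PC.AbsFool
import Pool.Agent.Y603.PC.MLaw

/-!
# Circuits which read the digits of several random real numbers
-/

set_option autoImplicit false

namespace Pool.Agent.Y603.PC

open Finset MeasureTheory Real
open Pool.Agent.Y933.KD (e)
open Pool.Agent.Y603.BR (LC dg rw' law_Leb)

lemma dec_all {p : Prop} {h : Decidable p} : (@decide p h = true) ↔ p := decide_eq_true_iff

/-- The circuit on the words. -/
def Circuit.toLC {ι : Type} {N : ℕ} (b : ℕ) (ε : Fin N ≃ ι) (C : Circuit ι) : LC (Fin b) N :=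
  letI := C.finite
  { Node := C.Node
    finite := C.finite
    val := fun v x => C.val v fun s => x (ε.symm s)
    depth := C.depth
    rule := by
      classical
      intro v
      rcases C.rule v with ⟨i, p, hp⟩ | ⟨J, hJ, hv | hv⟩
      · left
        refine ⟨ε.symm i, fun x y h => ?_⟩
        rw [hp, hp, h]
      · right; right
        refine ⟨false, J.image fun u => (u.1, !u.2), ?_, fun x => ?_⟩
        · intro u hu
          obtain ⟨a, ha, rfl⟩ := Finset.mem_image.1 hu
          exact hJ a ha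
        · rw [hv, decide_eq_false_iff_not]
          push Not
          constructor
          · rintro ⟨u, hu, h⟩
            refine ⟨_, Finset.mem_image_of_mem _ hu, ?_⟩
            show C.val u.1 _ = !u.2
            revert h
            cases C.val u.1 (fun s => (x (ε.symm s) : ℕ)) <;> cases u.2 <;> simp
          · rintro ⟨u, hu, h⟩
            obtain ⟨a, ha, rfl⟩ := Finset.mem_image.1 hu
            refine ⟨a, ha, ?_⟩
            have h' : C.val a.1 (fun s => (x (ε.symm s) : ℕ)) = !a.2 := h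
            rw [h']
            cases a.2 <;> simp
      · right; right
        refine ⟨true, J, hJ, fun x => ?_⟩
        rw [hv, dec_all] }

section
variable {τ : Type} [Fintype τ] {b : ℕ} (hb0 : 0 < b) (n : τ → ℕ) {N : ℕ}
  (ε : Fin N ≃ (Σ t : τ, Fin (n t)))

omit [Fintype τ] in
lemma toLC_val (C : Circuit (Σ t : τ, Fin (n t))) (v : C.Node) (y : τ → ℝ) :
    (C.toLC b ε).val v (mdig hb0 n ε y) = C.val v fun s => digit b (y s.1) (s.2 + 1) := by
  show C.val v (fun s => (mdig hb0 n ε y (ε.symm s) : ℕ)) = _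
  congr 1
  funext s
  show dg b (y (ε (ε.symm s)).1) ((ε (ε.symm s)).2 + 1) = _
  rw [Equiv.apply_symm_apply]
  rfl

include ε in
lemma card_eq : N = ∑ t, n t := by
  have := Fintype.card_congr ε
  rw [Fintype.card_fin, Fintype.card_sigma] at this
  simpa using this

end

/-- **The digits of several random real numbers with small joint Fourier coefficients fool the
circuits of constant depth.** -/
theorem joint_fool {b : ℕ} (hb : 2 ≤ b) (d : ℕ) {A η ρ : ℝ} (hA : 0 ≤ A) (hη : 0 < η)
    (hρ : 0 < ρ) :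
    ∃ c : ℝ, 0 < c ∧ ∃ M0 : ℕ, ∀ M : ℕ, M0 ≤ M → ∀ (τ : Type) [Fintype τ] [DecidableEq τ]
      (n : τ → ℕ), (b : ℝ) ^ (∑ t, n t) ≤ (M : ℝ) ^ A →
      ∀ (P : Measure ℝ) [IsProbabilityMeasure P] (Y : τ → ℝ → ℝ), (∀ t, Measurable (Y t)) →
      (∀ l : τ → ℤ, l ≠ 0 → (∀ t, |(l t : ℝ)| ≤ (M : ℝ) ^ ρ * (b : ℝ) ^ n t) →
        ‖∫ ω, e (∑ t, l t * Y t ω) ∂P‖ ≤ (M : ℝ) ^ (-η)) →
      ∀ C : Circuit (Σ t : τ, Fin (n t)), (∀ v, C.depth v ≤ d) →
      (Nat.card C.Node : ℝ) ≤ exp (log M ^ c) → ∀ v : C.Node,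
      MeasurableSet {ω | C.val v (fun s => digit b (Y s.1 ω) (s.2 + 1)) = true} ∧
      |P.real {ω | C.val v (fun s => digit b (Y s.1 ω) (s.2 + 1)) = true} -
        ((univ.filter fun X : (Σ t : τ, Fin (n t)) → Fin b =>
          C.val v (fun s => (X s : ℕ)) = true).card : ℝ) / (b : ℝ) ^ (∑ t, n t)| ≤
          exp (-(log M ^ c)) := by
  classical
  have hb0 : 0 < b := by omega
  obtain ⟨c, hc, M0, hM0⟩ := abs_fool hb hb0 d hA hη hρ
  refine ⟨c, hc, M0, fun M hM τ _ _ n hn P _ Y hY hP C hCd hCs v => ?_⟩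
  set N := Fintype.card (Σ t : τ, Fin (n t)) with hN
  set ε : Fin N ≃ (Σ t : τ, Fin (n t)) := (Fintype.equivFin _).symm with hε
  have hNn : N = ∑ t, n t := card_eq n ε
  have hMη : 0 ≤ (M : ℝ) ^ (-η) := by positivity
  have key := hM0 M hM N (by rw [hNn]; exact hn) (mlaw hb0 n ε P Y)
    (mlaw_nonneg hb0 n ε P Y) (mlaw_sum hb0 n ε P Y hY) (by
      intro K k hK hkK J hJ a
      have h := mlaw_bias hb0 n ε P Y hY hK hMη (k := k) (fun l hl hle => hP l hl fun t =>
        (hle t).trans (mul_le_mul_of_nonneg_right hkK (by positivity))) J hJ a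
      refine le_trans (le_of_eq ?_) h
      congr 2) (C.toLC b ε) hCd hCs v
  have hset : {ω | C.val v (fun s => digit b (Y s.1 ω) (s.2 + 1)) = true} =
      {ω | (C.toLC b ε).val v (mdig hb0 n ε fun t => Y t ω) = true} := by
    ext ω
    rw [Set.mem_ofPred_eq, Set.mem_ofPred_eq, toLC_val]
  have hmeas : MeasurableSet {ω | (C.toLC b ε).val v (mdig hb0 n ε fun t => Y t ω) = true} := by
    have h1 : {ω | (C.toLC b ε).val v (mdig hb0 n ε fun t => Y t ω) = true} =
        ⋃ x ∈ (univ : Finset (Fin N → Fin b)).filter (fun x => (C.toLC b ε).val v x = true),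
          {ω | mdig hb0 n ε (fun t => Y t ω) = x} := by
      ext ω
      simp
    rw [h1]
    exact Finset.measurableSet_biUnion _ fun x _ => measurableSet_mdig hb0 n ε Y hY x
  have e1 : P.real {ω | C.val v (fun s => digit b (Y s.1 ω) (s.2 + 1)) = true} =
      ∑ y, mlaw hb0 n ε P Y y * rw' ((C.toLC b ε).val v) y := by
    rw [hset, mlaw_event hb0 n ε P Y hY fun y => (C.toLC b ε).val v y = true]
    refine Finset.sum_congr rfl fun y _ => ?_
    unfold rw'
    congr 1
    split_ifs <;> rfl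
  have e2 : ((univ.filter fun X : (Σ t : τ, Fin (n t)) → Fin b =>
      C.val v (fun s => (X s : ℕ)) = true).card : ℝ) / (b : ℝ) ^ (∑ t, n t) =
      ∑ y, ((b : ℝ) ^ N)⁻¹ * rw' ((C.toLC b ε).val v) y := by
    have hpow : (b : ℝ) ^ (∑ t, n t) = (b : ℝ) ^ N := by rw [hNn]
    rw [← Finset.mul_sum, div_eq_inv_mul, hpow]
    congr 1
    have h1 : ∀ y : Fin N → Fin b, rw' ((C.toLC b ε).val v) y =
        if (C.toLC b ε).val v y = true then 1 else 0 := fun y => rfl
    simp only [h1]
    rw [Finset.sum_boole]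
    congr 1
    refine Finset.card_bij' (fun X _ => fun j => X (ε j)) (fun y _ => fun s => y (ε.symm s))
      (fun X hX => ?_) (fun y hy => ?_) (fun X _ => ?_) (fun y _ => ?_)
    · rw [Finset.mem_filter] at hX ⊢
      refine ⟨Finset.mem_univ _, ?_⟩
      show C.val v (fun s => (X (ε (ε.symm s)) : ℕ)) = true
      simp only [Equiv.apply_symm_apply]
      exact hX.2
    · rw [Finset.mem_filter] at hy ⊢
      exact ⟨Finset.mem_univ _, hy.2⟩
    · funext s
      simp
    · funext j
      simp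
  refine ⟨by rw [hset]; exact hmeas, ?_⟩
  rw [e1, e2]
  exact key

end Pool.Agent.Y603.PC
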