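import Pool.Agent.Y933.KD.Test

/-!
# Comparison of two families of real random variables on products of intervals modulo one

A version of the comparison of helper933 (`Y933/KD/Test.lean`) for several random numbers.
-/

set_option autoImplicit false

namespace Pool.Agent.Y603.PC

open Finset Real MeasureTheory
open Pool.Agent.Y933.KD (e e_add e_zero norm_e continuous_e e_sum prod_diff ind ind_nonneg
  ind_le_one TP TP_F TP_g F F_expand F_nonneg D g g_nonneg g_le_one w appr measurable_ind hat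
  int_F integrable_F)

section
variable {Ω : Type*} [MeasurableSpace Ω]

/-- Fourier coefficients of a family of random numbers. -/
noncomputable def ch {k : ℕ} (P : Measure Ω) (X : Fin k → Ω → ℝ) (h : Fin k → ℤ) : ℂ :=
  ∫ ω, e (∑ i, h i * X i ω) ∂P

lemma ch_zero {k : ℕ} (P : Measure Ω) [IsProbabilityMeasure P] (X : Fin k → Ω → ℝ) :
    ch P X 0 = 1 := by
  simp [ch, e_zero]

lemma integrable_e' (P : Measure Ω) [IsFiniteMeasure P] {f : Ω → ℝ} (hf : Measurable f) :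
    Integrable (fun x => e (f x)) P := by
  refine Integrable.of_bound (C := 1) ?_ ?_
  · exact (continuous_e.measurable.comp hf).aestronglyMeasurable
  · exact Filter.Eventually.of_forall fun x => (norm_e _).le

omit [MeasurableSpace Ω] in
lemma expand {k H : ℕ} (f : Fin k → ℝ → ℝ) (hf : ∀ i, TP H (f i)) :
    ∃ d : (Fin k → ℤ) → ℂ, (∀ h, ‖d h‖ ≤ 1) ∧ ∀ x : Fin k → ℝ, ((∏ i, f i (x i) : ℝ) : ℂ) =
      ∑ h ∈ Fintype.piFinset (fun _ : Fin k => Finset.Icc (-(H : ℤ)) H),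
        d h * e (∑ i, h i * x i) := by
  choose c hc1 hc2 using hf
  refine ⟨fun h => ∏ i, c i (h i), fun h => ?_, fun x => ?_⟩
  · rw [norm_prod]
    exact prod_le_one (fun i _ => norm_nonneg _) fun i _ => hc1 i _
  · push_cast
    simp only [hc2]
    rw [prod_univ_sum]
    refine sum_congr rfl fun h _ => ?_
    rw [prod_mul_distrib, ← e_sum]

lemma key_tp {k H : ℕ} (P : Measure Ω) [IsProbabilityMeasure P] (X : Fin k → Ω → ℝ)
    (hX : ∀ i, Measurable (X i)) (f : Fin k → ℝ → ℝ) (d : (Fin k → ℤ) → ℂ)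
    (hd2 : ∀ x : Fin k → ℝ, ((∏ i, f i (x i) : ℝ) : ℂ) =
      ∑ h ∈ Fintype.piFinset (fun _ : Fin k => Finset.Icc (-(H : ℤ)) H),
        d h * e (∑ i, h i * x i)) :
    ((∫ ω, ∏ i, f i (X i ω) ∂P : ℝ) : ℂ) =
      ∑ h ∈ Fintype.piFinset (fun _ : Fin k => Finset.Icc (-(H : ℤ)) H), d h * ch P X h := by
  rw [← integral_complex_ofReal]
  have h1 : (fun ω : Ω => ((∏ i, f i (X i ω) : ℝ) : ℂ)) = fun ω =>
      ∑ h ∈ Fintype.piFinset (fun _ : Fin k => Finset.Icc (-(H : ℤ)) H),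
        d h * e (∑ i, h i * X i ω) := funext fun ω => hd2 fun i => X i ω
  rw [h1, integral_finsetSum _ fun h _ => (integrable_e' P
    (Finset.measurable_sum _ fun i _ => (hX i).const_mul _)).const_mul _]
  refine sum_congr rfl fun h _ => ?_
  rw [integral_const_mul]
  rfl

lemma diff_tp' {k H : ℕ} {Ω' : Type*} [MeasurableSpace Ω'] (P : Measure Ω) (Q : Measure Ω')
    [IsProbabilityMeasure P] [IsProbabilityMeasure Q] (X : Fin k → Ω → ℝ) (Y : Fin k → Ω' → ℝ)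
    (hX : ∀ i, Measurable (X i)) (hY : ∀ i, Measurable (Y i))
    (f : Fin k → ℝ → ℝ) (hf : ∀ i, TP H (f i)) (Δ : ℝ)
    (hΔ : ∀ h : Fin k → ℤ, (∀ i, |h i| ≤ H) → ‖ch P X h - ch Q Y h‖ ≤ Δ) :
    |∫ ω, ∏ i, f i (X i ω) ∂P - ∫ ω, ∏ i, f i (Y i ω) ∂Q| ≤ (2 * H + 1) ^ k * Δ := by
  obtain ⟨d, hd1, hd2⟩ := expand f hf
  have h2 : (((∫ ω, ∏ i, f i (X i ω) ∂P - ∫ ω, ∏ i, f i (Y i ω) ∂Q : ℝ)) : ℂ) =
      ∑ h ∈ Fintype.piFinset (fun _ : Fin k => Finset.Icc (-(H : ℤ)) H),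
        d h * (ch P X h - ch Q Y h) := by
    rw [Complex.ofReal_sub, key_tp P X hX f d hd2, key_tp Q Y hY f d hd2, ← sum_sub_distrib]
    refine sum_congr rfl fun h _ => ?_
    ring
  have h3 : |∫ ω, ∏ i, f i (X i ω) ∂P - ∫ ω, ∏ i, f i (Y i ω) ∂Q| =
      ‖(((∫ ω, ∏ i, f i (X i ω) ∂P - ∫ ω, ∏ i, f i (Y i ω) ∂Q : ℝ)) : ℂ)‖ := by
    rw [Complex.norm_real, Real.norm_eq_abs]
  rw [h3, h2]
  have hΔ0 : 0 ≤ Δ := (norm_nonneg _).trans (hΔ 0 (by simp))
  refine (norm_sum_le _ _).trans ?_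
  have h4 : ∀ h ∈ Fintype.piFinset (fun _ : Fin k => Finset.Icc (-(H : ℤ)) H),
      ‖d h * (ch P X h - ch Q Y h)‖ ≤ Δ := by
    intro h hh
    rw [Fintype.mem_piFinset] at hh
    rw [norm_mul]
    calc ‖d h‖ * _ ≤ 1 * Δ := by
          gcongr
          · exact hd1 h
          · exact hΔ h fun i => abs_le.2 (Finset.mem_Icc.1 (hh i))
      _ = Δ := one_mul _
  refine (sum_le_sum h4).trans ?_
  rw [sum_const, nsmul_eq_mul, Fintype.card_piFinset]
  simp only [Int.card_Icc, prod_const, card_univ, Fintype.card_fin]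
  have h5 : ((H : ℤ) + 1 - -(H : ℤ)).toNat = 2 * H + 1 := by omega
  rw [h5]
  push_cast
  exact le_rfl

/-- the integral of the Fejer kernel -/
lemma int_F' {K : ℕ} (hK : 0 < K) (P : Measure Ω) [IsProbabilityMeasure P] {f : Ω → ℝ}
    (hf : Measurable f) (u Δ : ℝ)
    (hQ : ∀ h : ℤ, h ≠ 0 → |h| ≤ K → ‖∫ ω, e (h * f ω) ∂P‖ ≤ Δ) :
    |∫ ω, F K (f ω - u) ∂P - 1| ≤ K * Δ := by
  have hp : IsProbabilityMeasure (P.map f) := Measure.isProbabilityMeasure_map hf.aemeasurable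
  have h1 := int_F hK (P.map f) 1 u Δ (fun h hh hhK => by
    have hc : Continuous fun x : ℝ => e ((h : ℝ) * x) := continuous_e.comp (by fun_prop)
    unfold hat
    rw [mul_one, integral_map hf.aemeasurable hc.aestronglyMeasurable]
    exact hQ h hh hhK)
  have h2 : ∫ x, F K ((1 : ℤ) * x - u) ∂(P.map f) = ∫ ω, F K (f ω - u) ∂P := by
    have hc : Continuous (fun x => F K (((1 : ℤ) : ℝ) * x - u)) :=
      (TP_F (le_refl K) u).cont.comp (by fun_prop : Continuous fun x : ℝ => (((1 : ℤ) : ℝ)) * x)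
    rw [integral_map hf.aemeasurable hc.aestronglyMeasurable]
    simp
  rwa [h2] at h1

lemma integrable_F' (K : ℕ) (P : Measure Ω) [IsProbabilityMeasure P] {f : Ω → ℝ}
    (hf : Measurable f) (u : ℝ) : Integrable (fun ω => F K (f ω - u)) P := by
  have hp : IsProbabilityMeasure (P.map f) := Measure.isProbabilityMeasure_map hf.aemeasurable
  have h1 := integrable_F K (P.map f) 1 u
  have h2 := h1.comp_measurable hf
  refine h2.congr (Filter.Eventually.of_forall fun ω => ?_)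
  simp

/-- the error of the approximation, for one measure -/
lemma approx_one' {k K R : ℕ} (hK : 0 < K) (hR : 0 < R) (P : Measure Ω) [IsProbabilityMeasure P]
    (X : Fin k → Ω → ℝ) (hX : ∀ i, Measurable (X i)) (u v : Fin k → ℝ) (hu : ∀ i, 0 ≤ u i)
    (hv : ∀ i, v i ≤ 1) (Δ : ℝ)
    (hP : ∀ i, ∀ h : ℤ, h ≠ 0 → |h| ≤ K → ‖∫ ω, e (h * X i ω) ∂P‖ ≤ Δ) :
    |∫ ω, ∏ i, ind (u i) (v i) (X i ω) ∂P - ∫ ω, ∏ i, g R (u i) (v i) (X i ω) ∂P| ≤
      k * ((K : ℝ) ^ 2 / R + π ^ 2 / (2 * K) * (1 + K * Δ)) := by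
  have hKR : (0 : ℝ) < K := by exact_mod_cast hK
  have hi1 : Integrable (fun ω => ∏ i, ind (u i) (v i) (X i ω)) P := by
    refine Integrable.of_bound (C := 1) ?_ (Filter.Eventually.of_forall fun x => ?_)
    · refine Measurable.aestronglyMeasurable ?_
      exact Finset.measurable_prod _ fun i _ => (measurable_ind _ _).comp (hX i)
    · rw [Real.norm_eq_abs, abs_of_nonneg (prod_nonneg fun i _ => ind_nonneg _ _ _)]
      exact prod_le_one (fun i _ => ind_nonneg _ _ _) fun i _ => ind_le_one _ _ _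
  have hi2 : Integrable (fun ω => ∏ i, g R (u i) (v i) (X i ω)) P := by
    refine Integrable.of_bound (C := 1) ?_ (Filter.Eventually.of_forall fun x => ?_)
    · refine Measurable.aestronglyMeasurable ?_
      exact Finset.measurable_prod _ fun i _ => (TP_g R (u i) (v i)).cont.measurable.comp (hX i)
    · rw [Real.norm_eq_abs, abs_of_nonneg (prod_nonneg fun i _ => g_nonneg _ _ _ _)]
      exact prod_le_one (fun i _ => g_nonneg _ _ _ _) fun i _ => g_le_one hR _ _ _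
  have hiw : ∀ i, Integrable (fun ω => w K R (u i) (v i) (X i ω)) P := by
    intro i
    unfold w
    exact (integrable_const _).add
      (((integrable_F' K P (hX i) (u i)).add (integrable_F' K P (hX i) (v i))).const_mul _)
  rw [← integral_sub hi1 hi2]
  have h1 : |∫ ω, (∏ i, ind (u i) (v i) (X i ω) - ∏ i, g R (u i) (v i) (X i ω)) ∂P| ≤
      ∫ ω, ∑ i, w K R (u i) (v i) (X i ω) ∂P := by
    refine (abs_integral_le_integral_abs).trans ?_
    refine integral_mono (hi1.sub hi2).abs (integrable_finsetSum _ fun i _ => hiw i) fun x => ?_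
    refine (prod_diff _ _ _ (fun i _ => ind_nonneg _ _ _) (fun i _ => ind_le_one _ _ _)
      (fun i _ => g_nonneg _ _ _ _) (fun i _ => g_le_one hR _ _ _)).trans ?_
    exact sum_le_sum fun i _ => appr hK hR (hu i) (hv i) _
  refine h1.trans ?_
  rw [integral_finsetSum _ fun i _ => hiw i]
  have h2 : ∀ i ∈ (univ : Finset (Fin k)), ∫ ω, w K R (u i) (v i) (X i ω) ∂P ≤
      (K : ℝ) ^ 2 / R + π ^ 2 / (2 * K) * (1 + K * Δ) := by
    intro i _
    have h0 : ∫ ω, w K R (u i) (v i) (X i ω) ∂P = (K : ℝ) ^ 2 / R + π ^ 2 / (4 * K) *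
        (∫ ω, F K (X i ω - u i) ∂P + ∫ ω, F K (X i ω - v i) ∂P) := by
      have e1 : ∫ ω, w K R (u i) (v i) (X i ω) ∂P = ∫ ω, (K : ℝ) ^ 2 / R ∂P +
          ∫ ω, π ^ 2 / (4 * K) * (F K (X i ω - u i) + F K (X i ω - v i)) ∂P :=
        integral_add (integrable_const _)
          (((integrable_F' K P (hX i) (u i)).add (integrable_F' K P (hX i) (v i))).const_mul _)
      have e2 : ∫ ω, (F K (X i ω - u i) + F K (X i ω - v i)) ∂P =
          ∫ ω, F K (X i ω - u i) ∂P + ∫ ω, F K (X i ω - v i) ∂P :=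
        integral_add (integrable_F' K P (hX i) (u i)) (integrable_F' K P (hX i) (v i))
      rw [e1, integral_const_mul, e2, integral_const]
      simp
    rw [h0]
    have h3 := int_F' hK P (hX i) (u i) Δ (hP i)
    have h4 := int_F' hK P (hX i) (v i) Δ (hP i)
    rw [abs_le] at h3 h4
    have h5 : ∫ ω, F K (X i ω - u i) ∂P + ∫ ω, F K (X i ω - v i) ∂P ≤ 2 * (1 + K * Δ) := by
      linarith [h3.2, h4.2]
    have h6 : π ^ 2 / (4 * K) * (∫ ω, F K (X i ω - u i) ∂P + ∫ ω, F K (X i ω - v i) ∂P) ≤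
        π ^ 2 / (4 * K) * (2 * (1 + K * Δ)) := by gcongr
    have h7 : π ^ 2 / (4 * K) * (2 * (1 + K * Δ)) = π ^ 2 / (2 * K) * (1 + K * Δ) := by
      field_simp; ring
    linarith
  refine (sum_le_sum h2).trans ?_
  rw [sum_const, card_univ, Fintype.card_fin, nsmul_eq_mul]

lemma ch_single {k : ℕ} (P : Measure Ω) (X : Fin k → Ω → ℝ) (i : Fin k) (h : ℤ) :
    ch P X (fun j => if j = i then h else 0) = ∫ ω, e (h * X i ω) ∂P := by
  unfold ch
  congr 1
  funext ω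
  congr 1
  rw [sum_eq_single i]
  · show (((if i = i then h else 0 : ℤ)) : ℝ) * X i ω = _
    rw [if_pos rfl]
  · intro j _ hj
    show (((if j = i then h else 0 : ℤ)) : ℝ) * X j ω = _
    rw [if_neg hj]
    simp
  · intro hi
    exact absurd (mem_univ i) hi

end

/-- **Comparison** of two families of random numbers, the second one with vanishing Fourier
coefficients on the axes. -/
theorem mtest {Ω Ω' : Type*} [MeasurableSpace Ω] [MeasurableSpace Ω'] {k K : ℕ} (hK : 0 < K)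
    (P : Measure Ω) (Q : Measure Ω') [IsProbabilityMeasure P] [IsProbabilityMeasure Q]
    (X : Fin k → Ω → ℝ) (Y : Fin k → Ω' → ℝ) (hX : ∀ i, Measurable (X i))
    (hY : ∀ i, Measurable (Y i)) (Δ : ℝ) (hΔ0 : 0 ≤ Δ)
    (hΔ : ∀ h : Fin k → ℤ, (∀ i, |h i| ≤ (K : ℤ) ^ 3) → ‖ch P X h - ch Q Y h‖ ≤ Δ)
    (hQ : ∀ i, ∀ h : ℤ, h ≠ 0 → ∫ ω, e (h * Y i ω) ∂Q = 0)
    (u v : Fin k → ℝ) (hu : ∀ i, 0 ≤ u i) (hv : ∀ i, v i ≤ 1) :
    |∫ ω, ∏ i, ind (u i) (v i) (X i ω) ∂P - ∫ ω, ∏ i, ind (u i) (v i) (Y i ω) ∂Q| ≤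
      (2 * (K : ℝ) ^ 3 + 1) ^ k * Δ + k * (12 / K + 5 * Δ) := by
  classical
  have hKR : (0 : ℝ) < K := by exact_mod_cast hK
  have hR : 0 < K ^ 3 := by positivity
  have hP1 : ∀ i, ∀ h : ℤ, h ≠ 0 → |h| ≤ K → ‖∫ ω, e (h * X i ω) ∂P‖ ≤ Δ := by
    intro i h hh hhK
    have h1 := hΔ (fun j => if j = i then h else 0) (fun j => by
      have hK1 : (K : ℤ) ≤ (K : ℤ) ^ 3 := by
        have : (1 : ℤ) ≤ K := by exact_mod_cast hK
        calc (K : ℤ) = K ^ 1 := (pow_one _).symm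
          _ ≤ (K : ℤ) ^ 3 := pow_le_pow_right₀ this (by norm_num)
      show |if j = i then h else 0| ≤ _
      split_ifs
      · exact hhK.trans hK1
      · rw [abs_zero]; positivity)
    rw [ch_single, ch_single, hQ i h hh, sub_zero] at h1
    exact h1
  have a1 := approx_one' hK hR P X hX u v hu hv Δ hP1
  have a2 := approx_one' hK hR Q Y hY u v hu hv 0 (fun i h hh _ => by
    rw [hQ i h hh, norm_zero])
  have a3 := diff_tp' P Q X Y hX hY (fun i => g (K ^ 3) (u i) (v i))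
    (fun i => TP_g (K ^ 3) (u i) (v i)) Δ (fun h hh => hΔ h fun i => by
      have := hh i
      push_cast at this
      exact this)
  have hpi : π ^ 2 ≤ 10 := by
    have := pi_lt_d2
    nlinarith [pi_pos]
  have b1 : ((K : ℝ) ^ 2 / ((K ^ 3 : ℕ) : ℝ)) = 1 / K := by
    push_cast
    field_simp
  rw [b1] at a1 a2
  have b2 : π ^ 2 / (2 * K) * (1 + K * Δ) ≤ 5 / K + 5 * Δ := by
    have : π ^ 2 / (2 * K) * (1 + K * Δ) = π ^ 2 / 2 * (1 / K) + π ^ 2 / 2 * Δ := by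
      field_simp
    rw [this]
    have c1 : π ^ 2 / 2 * (1 / K) ≤ 5 * (1 / K) := by gcongr; linarith
    have c2 : π ^ 2 / 2 * Δ ≤ 5 * Δ := by gcongr; linarith
    calc π ^ 2 / 2 * (1 / K) + π ^ 2 / 2 * Δ ≤ 5 * (1 / K) + 5 * Δ := add_le_add c1 c2
      _ = 5 / K + 5 * Δ := by ring
  have b3 : π ^ 2 / (2 * K) * (1 + K * 0) ≤ 5 / K := by
    have : π ^ 2 / (2 * K) * (1 + K * 0) = π ^ 2 / 2 * (1 / K) := by field_simp; ring
    rw [this]
    have c1 : π ^ 2 / 2 * (1 / K) ≤ 5 * (1 / K) := by gcongr; linarith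
    calc π ^ 2 / 2 * (1 / K) ≤ 5 * (1 / K) := c1
      _ = 5 / K := by ring
  have hk : (0 : ℝ) ≤ k := Nat.cast_nonneg k
  have c1 : (k : ℝ) * (1 / K + π ^ 2 / (2 * K) * (1 + K * Δ)) ≤ k * (6 / K + 5 * Δ) := by
    refine mul_le_mul_of_nonneg_left ?_ hk
    calc 1 / (K : ℝ) + π ^ 2 / (2 * K) * (1 + K * Δ) ≤ 1 / K + (5 / K + 5 * Δ) := by gcongr
      _ = 6 / K + 5 * Δ := by ring
  have c2 : (k : ℝ) * (1 / K + π ^ 2 / (2 * K) * (1 + K * 0)) ≤ k * (6 / K) := by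
    refine mul_le_mul_of_nonneg_left ?_ hk
    calc 1 / (K : ℝ) + π ^ 2 / (2 * K) * (1 + K * 0) ≤ 1 / K + 5 / K := by gcongr
      _ = 6 / K := by ring
  have c3 : ((2 * ((K ^ 3 : ℕ) : ℝ) + 1) ^ k) = (2 * (K : ℝ) ^ 3 + 1) ^ k := by push_cast; rfl
  rw [c3] at a3
  have e4 : (k : ℝ) * (12 / K + 5 * Δ) = k * (6 / K + 5 * Δ) + k * (6 / K) := by ring
  rw [abs_le] at a1 a2 a3 ⊢
  constructor <;> linarith [a1.1, a1.2, a2.1, a2.2, a3.1, a3.2]

end Pool.Agent.Y603.PC
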