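import Pool.Agent.H373R2.NB.Weyl

/-!
# Integer combinations of the translates of several real polynomials
-/

set_option autoImplicit false

namespace Pool.Agent.Y603.PC

open Finset Polynomial
open Pool.Agent.H373R2.NB (Ph)

lemma Ph_real (d : ℕ) : ∀ f : ℝ[X], f.natDegree ≤ d →
    Ph d ((d.factorial : ℝ) * f.coeff d) (fun n => f.eval (n : ℝ)) := by
  induction d with
  | zero =>
    intro f hf n
    have h1 : f = C (f.coeff 0) := eq_C_of_natDegree_le_zero hf
    have h2 : f.eval (n : ℝ) = f.coeff 0 := by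
      conv_lhs => rw [h1]
      rw [eval_C]
    show f.eval (n : ℝ) = _
    rw [h2]; simp
  | succ d ih =>
    intro f hf h
    set g : ℝ[X] := taylor (h : ℝ) f - f with hg
    have hcoef : ∀ j, d ≤ j → (taylor (h : ℝ) f).coeff j =
        f.coeff j + (if j = d then ((d : ℝ) + 1) * f.coeff (d + 1) * h else 0) := by
      intro j hj
      rw [taylor_coeff]
      have h1 : (hasseDeriv j f).natDegree < 2 := by
        have := natDegree_hasseDeriv_le f j
        omega
      rw [eval_eq_sum_range' h1, sum_range_succ, sum_range_succ, sum_range_zero,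
        hasseDeriv_coeff, hasseDeriv_coeff]
      rcases eq_or_ne j d with h2 | h2
      · subst h2
        rw [if_pos rfl, zero_add, zero_add, Nat.choose_self, add_comm 1 j,
          Nat.choose_succ_self_right]
        push_cast
        ring
      · rw [if_neg h2]
        have h3 : f.coeff (1 + j) = 0 := coeff_eq_zero_of_natDegree_lt (by omega)
        rw [h3, zero_add, zero_add, Nat.choose_self]
        push_cast
        ring
    have hgd : g.natDegree ≤ d := by
      rw [natDegree_le_iff_coeff_eq_zero]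
      intro j hj
      rw [hg, coeff_sub, hcoef j (by omega), if_neg (by omega)]
      ring
    have hgc : g.coeff d = ((d : ℝ) + 1) * f.coeff (d + 1) * h := by
      rw [hg, coeff_sub, hcoef d le_rfl, if_pos rfl]; ring
    have h1 := ih g hgd
    have h2 : (fun n : ℕ => g.eval (n : ℝ)) = fun n : ℕ =>
        f.eval ((n + h : ℕ) : ℝ) - f.eval (n : ℝ) := by
      funext n
      rw [hg, eval_sub, taylor_eval]
      push_cast
      rw [add_comm (n : ℝ) h]
    have h3 : (d.factorial : ℝ) * g.coeff d =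
        (h : ℝ) * (((d + 1).factorial : ℝ) * f.coeff (d + 1)) := by
      rw [hgc, Nat.factorial_succ]; push_cast; ring
    rw [h2, h3] at h1
    exact h1

section
variable {r : ℕ}

/-- An integer combination of the translates of a polynomial. -/
noncomputable def GG (P : ℝ[X]) (l : Fin r → ℤ) : ℝ[X] :=
  ∑ i : Fin r, C (l i : ℝ) * P.comp (X + C ((i : ℕ) : ℝ))

/-- The moments of the coefficients. -/
def mom (l : Fin r → ℤ) (s : ℕ) : ℤ := ∑ i : Fin r, l i * ((i : ℕ) : ℤ) ^ s

lemma GG_eval (P : ℝ[X]) (l : Fin r → ℤ) (x : ℝ) :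
    (GG P l).eval x = ∑ i : Fin r, l i * P.eval (x + (i : ℕ)) := by
  unfold GG
  rw [eval_finsetSum]
  refine Finset.sum_congr rfl fun i _ => ?_
  simp

lemma GG_coeff {P : ℝ[X]} {D : ℕ} (hP : P.natDegree ≤ D) (l : Fin r → ℤ) (j : ℕ) :
    (GG P l).coeff j =
      ∑ k ∈ range (D + 1), P.coeff k * (k.choose j) * (mom l (k - j) : ℤ) := by
  have h1 : P = ∑ k ∈ range (D + 1), C (P.coeff k) * X ^ k :=
    P.as_sum_range_C_mul_X_pow' (by omega)
  have h2 : ∀ a : ℝ, (P.comp (X + C a)).coeff j =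
      ∑ k ∈ range (D + 1), P.coeff k * (a ^ (k - j) * (k.choose j)) := by
    intro a
    conv_lhs => rw [h1]
    rw [Polynomial.sum_comp, finsetSum_coeff]
    refine Finset.sum_congr rfl fun k _ => ?_
    rw [mul_comp, C_comp, pow_comp, X_comp, coeff_C_mul, coeff_X_add_C_pow]
  unfold GG
  rw [finsetSum_coeff]
  have h3 : ∀ i : Fin r, (C (l i : ℝ) * P.comp (X + C ((i : ℕ) : ℝ))).coeff j =
      ∑ k ∈ range (D + 1), (l i : ℝ) * (P.coeff k * ((((i : ℕ) : ℝ)) ^ (k - j) * (k.choose j))) := by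
    intro i
    rw [coeff_C_mul, h2, Finset.mul_sum]
  rw [Finset.sum_congr rfl fun i _ => h3 i, Finset.sum_comm]
  refine Finset.sum_congr rfl fun k _ => ?_
  unfold mom
  push_cast
  rw [Finset.mul_sum]
  refine Finset.sum_congr rfl fun i _ => ?_
  ring

lemma GG_deg {P : ℝ[X]} {D : ℕ} (hP : P.natDegree ≤ D) (l : Fin r → ℤ) {s : ℕ} (hsD : s ≤ D)
    (hs : ∀ u < s, mom l u = 0) : (GG P l).natDegree ≤ D - s ∧
      (GG P l).coeff (D - s) = (D.choose (D - s) : ℝ) * P.coeff D * (mom l s : ℤ) := by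
  constructor
  · rw [natDegree_le_iff_coeff_eq_zero]
    intro j hj
    rw [GG_coeff hP]
    refine Finset.sum_eq_zero fun k hk => ?_
    rw [Finset.mem_range] at hk
    rcases lt_or_ge k j with h | h
    · rw [Nat.choose_eq_zero_of_lt h]; simp
    · rw [hs (k - j) (by omega)]; simp
  · rw [GG_coeff hP, Finset.sum_range_succ, Finset.sum_eq_zero, zero_add]
    · rw [show D - (D - s) = s by omega]
      ring
    · intro k hk
      rw [Finset.mem_range] at hk
      rcases lt_or_ge k (D - s) with h | h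
      · rw [Nat.choose_eq_zero_of_lt h]; simp
      · rw [hs (k - (D - s)) (by omega)]; simp

lemma mom_ne {l : Fin r → ℤ} (hl : l ≠ 0) :
    ∃ s < r, mom l s ≠ 0 ∧ ∀ u < s, mom l u = 0 := by
  classical
  have h1 : ∃ s, mom l s ≠ 0 ∧ s < r := by
    by_contra hcon
    push Not at hcon
    apply hl
    refine Matrix.eq_zero_of_forall_pow_sum_mul_pow_eq_zero
      (f := fun i : Fin r => (((i : ℕ) : ℤ))) (fun i j h => ?_) fun i => ?_
    · have h' : ((i : ℕ) : ℤ) = ((j : ℕ) : ℤ) := h
      exact Fin.ext (by exact_mod_cast h')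
    · by_contra h2
      exact absurd i.2 (not_lt.2 (hcon i h2))
  have h2 := Nat.find_spec h1
  refine ⟨Nat.find h1, h2.2, h2.1, fun u hu => ?_⟩
  by_contra h3
  exact Nat.find_min h1 hu ⟨h3, hu.trans h2.2⟩

lemma mom_le (l : Fin r → ℤ) {B : ℝ} (hB : ∀ i, |(l i : ℝ)| ≤ B) {s : ℕ} (hs : s < r) :
    |((mom l s : ℤ) : ℝ)| ≤ (r : ℝ) ^ (r + 1) * B := by
  have hr1 : (1 : ℝ) ≤ r := by
    have : 1 ≤ r := by omega
    exact_mod_cast this
  have hB0 : 0 ≤ B := (abs_nonneg _).trans (hB ⟨0, by omega⟩)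
  unfold mom
  push_cast
  refine (Finset.abs_sum_le_sum_abs _ _).trans ?_
  calc _ ≤ ∑ _i : Fin r, B * (r : ℝ) ^ r := by
        refine Finset.sum_le_sum fun i _ => ?_
        rw [abs_mul]
        refine mul_le_mul (hB i) ?_ (abs_nonneg _) hB0
        rw [abs_of_nonneg (by positivity)]
        calc ((i : ℕ) : ℝ) ^ s ≤ (r : ℝ) ^ s := by
              refine pow_le_pow_left₀ (by positivity) ?_ s
              exact_mod_cast i.2.le
          _ ≤ (r : ℝ) ^ r := pow_le_pow_right₀ hr1 hs.le
    _ = (r : ℝ) ^ (r + 1) * B := by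
        rw [Finset.sum_const, Finset.card_univ, Fintype.card_fin, nsmul_eq_mul, pow_succ]
        ring

/-- **The phase of a combination.** -/
theorem phase {ι : Type} [Fintype ι] {D : ι → ℕ} (hr : ∀ i, r ≤ D i)
    (hD : ∀ i j, i ≠ j → D i + r ≤ D j ∨ D j + r ≤ D i) {P : ι → ℝ[X]}
    (hP : ∀ i, (P i).natDegree ≤ D i) {l : ι → Fin r → ℤ} (hl : l ≠ 0) :
    ∃ i, ∃ s < r, mom (l i) s ≠ 0 ∧ ∀ N : ℕ,
      Ph (D i - s) (((D i - s).factorial * (D i).choose (D i - s) : ℕ) * (P i).coeff (D i) *
        ((mom (l i) s : ℤ) : ℝ))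
        (fun n => ∑ j, ∑ t : Fin r, (l j t : ℝ) *
          (P j).eval (((n + N + 1 + (t : ℕ) : ℕ)) : ℝ)) := by
  classical
  obtain ⟨i0, hi0⟩ := Function.ne_iff.1 hl
  have hne : (univ.filter fun j => l j ≠ 0).Nonempty := ⟨i0, by simpa using hi0⟩
  obtain ⟨i, hi, hmax⟩ := Finset.exists_max_image _ D hne
  rw [Finset.mem_filter] at hi
  obtain ⟨s, hsr, hs1, hs2⟩ := mom_ne hi.2
  refine ⟨i, s, hsr, hs1, fun N => ?_⟩
  have hsD : s ≤ D i := hsr.le.trans (hr i)
  set Q : ι → ℝ[X] := fun j => (P j).comp (X + C ((N : ℝ) + 1)) with hQ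
  have hQd : ∀ j, (Q j).natDegree ≤ D j := fun j => by
    rw [hQ]
    refine natDegree_comp_le.trans ?_
    rw [natDegree_X_add_C, mul_one]
    exact hP j
  have hQc : (Q i).coeff (D i) = (P i).coeff (D i) := by
    show ((P i).comp (X + C ((N : ℝ) + 1))).coeff (D i) = _
    have := GG_coeff (r := 1) (hP i) (fun _ => 1) (D i)
    conv_lhs => rw [(P i).as_sum_range_C_mul_X_pow' (show (P i).natDegree < D i + 1 by
      have := hP i; omega)]
    rw [Polynomial.sum_comp, finsetSum_coeff, Finset.sum_range_succ,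
      Finset.sum_eq_zero, zero_add]
    · rw [mul_comp, C_comp, pow_comp, X_comp, coeff_C_mul, coeff_X_add_C_pow]
      simp
    · intro k hk
      rw [Finset.mem_range] at hk
      rw [mul_comp, C_comp, pow_comp, X_comp, coeff_C_mul, coeff_X_add_C_pow,
        Nat.choose_eq_zero_of_lt hk]
      simp
  obtain ⟨g1, g2⟩ := GG_deg (hQd i) (l i) hsD hs2
  have hother : ∀ j, j ≠ i → (GG (Q j) (l j)).natDegree < D i - s := by
    intro j hj
    by_cases h0 : l j = 0
    · have : GG (Q j) (l j) = 0 := by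
        unfold GG
        refine Finset.sum_eq_zero fun t _ => ?_
        rw [h0]
        simp
      rw [this, natDegree_zero]
      have := hr i
      omega
    · have h1 : D j ≤ D i := hmax j (by simpa using h0)
      have h2 := (GG_deg (hQd j) (l j) (Nat.zero_le (D j)) (fun u hu => absurd hu (by omega))).1
      have h3 := hD j i hj
      have := hr j
      omega
  set F : ℝ[X] := ∑ j, GG (Q j) (l j) with hF
  have hFd : F.natDegree ≤ D i - s := by
    rw [hF]
    refine natDegree_sum_le_of_forall_le _ _ fun j _ => ?_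
    by_cases hj : j = i
    · rw [hj]; exact g1
    · exact (hother j hj).le
  have hFc : F.coeff (D i - s) = ((D i).choose (D i - s) : ℝ) * (P i).coeff (D i) *
      ((mom (l i) s : ℤ) : ℝ) := by
    rw [hF, finsetSum_coeff, Finset.sum_eq_single i, g2, hQc]
    · intro j _ hj
      exact coeff_eq_zero_of_natDegree_lt (hother j hj)
    · intro h
      exact absurd (Finset.mem_univ i) h
  have hph := Ph_real (D i - s) F hFd
  rw [hFc] at hph
  have e1 : (((D i - s).factorial : ℝ)) * (((D i).choose (D i - s) : ℝ) * (P i).coeff (D i) *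
      ((mom (l i) s : ℤ) : ℝ)) = (((D i - s).factorial * (D i).choose (D i - s) : ℕ)) *
        (P i).coeff (D i) * ((mom (l i) s : ℤ) : ℝ) := by
    push_cast
    ring
  rw [e1] at hph
  convert hph using 2 with n
  rw [hF, eval_finsetSum]
  refine Finset.sum_congr rfl fun j _ => ?_
  rw [GG_eval]
  refine Finset.sum_congr rfl fun t _ => ?_
  rw [hQ]
  simp only [eval_comp, eval_add, eval_X, eval_C]
  congr 2
  push_cast
  ring

end

end Pool.Agent.Y603.PC
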